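import Pool.Agent.MP_8b47e7_co.Mg.H99_Main
import Pool.Agent.MP_8b47e7_co.H27.Defs

/-! The construction for every large number of points. -/

set_option autoImplicit false

namespace Pool.Agent.MP_8b47e7_co.H27

open Pool.Agent.MP_8b47e7_co.H99 Finset Filter

lemma pow_eight_lt (n : ℕ) (hn : 64 ≤ n) : 20 * n ^ 8 < 2 ^ n := by
  induction n, hn using Nat.le_induction with
  | base => norm_num
  | succ k hk ih =>
    have h1 : (k + 1) * 16 ≤ k * 17 := by omega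
    have h2 : ((k + 1) * 16) ^ 8 ≤ (k * 17) ^ 8 := Nat.pow_le_pow_left h1 8
    rw [mul_pow, mul_pow] at h2
    rw [pow_succ 2 k]
    norm_num at h2
    omega

lemma large_n (K n : ℕ) (hK : 2 ≤ K) (hn : 2 ^ (160 * (2 * K + 1) ^ 2) ≤ n) :
    2 ≤ n ∧ 20 * (K * n) ^ 4 < 2 ^ n ∧ 4 ^ (160 * (2 * K + 1) ^ 2) ≤ K * n ^ 2 := by
  have h1 : 160 * (2 * K + 1) ^ 2 < 2 ^ (160 * (2 * K + 1) ^ 2) := Nat.lt_two_pow_self
  have h2 : K ≤ n := by nlinarith
  have h3 : 64 ≤ n := by nlinarith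
  refine ⟨by omega, ?_, ?_⟩
  · calc 20 * (K * n) ^ 4 ≤ 20 * (n * n) ^ 4 := by gcongr
      _ = 20 * n ^ 8 := by ring
      _ < 2 ^ n := pow_eight_lt n h3
  · calc 4 ^ (160 * (2 * K + 1) ^ 2) = (2 ^ (160 * (2 * K + 1) ^ 2)) ^ 2 := by
          rw [← pow_mul, mul_comm _ 2, pow_mul 2 2]; norm_num
      _ ≤ n ^ 2 := Nat.pow_le_pow_left hn 2
      _ ≤ K * n ^ 2 := Nat.le_mul_of_pos_left _ (by omega)

theorem edges_of (K n : ℕ) (hK : 2 ≤ K) (hn : 2 ≤ n) (h2n : 20 * (K * n) ^ 4 < 2 ^ n)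
    (hM : 4 ^ (160 * (2 * K + 1) ^ 2) ≤ K * n ^ 2) :
    ∃ T : ℕ, 0 < T ∧ T ≤ 4 ^ (24 * K * n ^ 2) ∧ ∃ E : Finset (ℕ × ℕ × ℕ),
      (∀ e ∈ E, e.1 ∣ T ∧ e.2.1 ∣ T ∧
        2 * (e.2.2 ^ 2 + e.1 ^ 2 + e.2.1 ^ 2) = 5 * (e.1 * e.2.1)) ∧
      ((K * n : ℕ) : ℝ) ^ 2 * #T.divisors ≤ 16 * #E := by
  classical
  set T := boxT (K * n ^ 2) (3 * (K * n)) n with hT
  have hT0 : T ≠ 0 := boxT_ne_zero _ _ _
  let W : ℕ × ℕ → ℕ := fun x => (2 * (x.1 ^ 2 + x.2 ^ 2)) * (x.1 ^ 2 + 4 * x.2 ^ 2)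
  have hW : ∀ x ∈ goodPairs K n, W x ∣ T ∧ (#T.divisors : ℝ) ≤ 2 * #(T / W x).divisors := by
    intro x hx
    rw [mem_goodPairs] at hx
    obtain ⟨⟨h1, h2⟩, -, h4⟩ := hx
    have a1 : x.1 ^ 2 ≤ (K * n) ^ 2 := Nat.pow_le_pow_left h1.2 _
    have a2 : x.2 ^ 2 ≤ (K * n) ^ 2 := Nat.pow_le_pow_left h2.2 _
    have a3 : 0 < x.1 ^ 2 := pow_pos h1.1 _
    have a4 : W x ≤ 20 * (K * n) ^ 4 := by
      calc W x ≤ (4 * (K * n) ^ 2) * (5 * (K * n) ^ 2) := Nat.mul_le_mul (by omega) (by omega)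
        _ = _ := by ring
    have a5 : 0 < K * n := Nat.mul_pos (by omega) (by omega)
    refine smooth_box _ _ _ _ (Nat.mul_pos (by omega) (by omega)).ne' (by omega) (by omega)
      (a4.trans_lt h2n) ?_ h4
    have : 0 < (K * n) ^ 4 := pow_pos a5 _
    calc W x ≤ 20 * (K * n) ^ 4 := a4
      _ < 81 * (K * n) ^ 4 := by omega
      _ = _ := by ring
  let D : Finset (Σ _ : ℕ × ℕ, ℕ) := (goodPairs K n).sigma fun x => (T / W x).divisors
  let f : (Σ _ : ℕ × ℕ, ℕ) → ℕ × ℕ × ℕ := fun q =>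
    (q.2 * (2 * (q.1.1 ^ 2 + q.1.2 ^ 2)), q.2 * (q.1.1 ^ 2 + 4 * q.1.2 ^ 2),
      3 * q.2 * q.1.1 * q.1.2)
  have hinj : Set.InjOn f D := by
    rintro ⟨⟨a, b⟩, d⟩ hq ⟨⟨a', b'⟩, d'⟩ hq' h
    simp only [D, coe_sigma, Set.mem_sigma_iff, mem_coe, mem_goodPairs] at hq hq'
    simp only [f, Prod.mk.injEq] at h
    obtain ⟨e1, e2, -⟩ := h
    have e3 : d * a ^ 2 = d' * a' ^ 2 := by nlinarith
    have e4 : d * b ^ 2 = d' * b' ^ 2 := by nlinarith
    have g1 : Nat.gcd (d * a ^ 2) (d * b ^ 2) = d := by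
      rw [Nat.gcd_mul_left, (hq.1.2.1.pow 2 2 : Nat.Coprime _ _), mul_one]
    have g2 : Nat.gcd (d' * a' ^ 2) (d' * b' ^ 2) = d' := by
      rw [Nat.gcd_mul_left, (hq'.1.2.1.pow 2 2 : Nat.Coprime _ _), mul_one]
    have hd : d = d' := by rw [← g1, e3, e4, g2]
    subst hd
    have hd0 : 0 < d := Nat.pos_of_mem_divisors hq.2
    have ha : a = a' := Nat.pow_left_injective (by norm_num) (Nat.eq_of_mul_eq_mul_left hd0 e3)
    have hb : b = b' := Nat.pow_left_injective (by norm_num) (Nat.eq_of_mul_eq_mul_left hd0 e4)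
    subst ha hb
    rfl
  refine ⟨T, Nat.pos_of_ne_zero hT0, ?_, D.image f, ?_, ?_⟩
  · refine (boxT_le _ _ _).trans (le_of_eq ?_)
    congr 1; ring
  · intro e he
    obtain ⟨⟨x, d⟩, hq, rfl⟩ := mem_image.1 he
    simp only [D, mem_sigma] at hq
    have h1 : d * W x ∣ T := by
      have := Nat.dvd_of_mem_divisors hq.2
      exact (Nat.dvd_div_iff_mul_dvd (hW x hq.1).1).1 this |> fun h => by rwa [mul_comm] at h
    refine ⟨Dvd.dvd.trans ⟨x.1 ^ 2 + 4 * x.2 ^ 2, by simp only [f, W]; ring⟩ h1,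
      Dvd.dvd.trans ⟨2 * (x.1 ^ 2 + x.2 ^ 2), by simp only [f, W]; ring⟩ h1, ?_⟩
    simp only [f]; ring
  · rw [card_image_of_injOn hinj, card_sigma]
    have h1 := card_goodPairs K n hK hn hM
    have h2 : (#(goodPairs K n) : ℝ) * #T.divisors ≤
        2 * ((∑ x ∈ goodPairs K n, #(T / W x).divisors : ℕ) : ℝ) := by
      push_cast
      rw [mul_sum, ← nsmul_eq_mul, ← sum_const]
      exact sum_le_sum fun x hx => (hW x hx).2
    have h0 : (0 : ℝ) ≤ #T.divisors := by positivity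
    nlinarith

lemma unit_finite (P : Finset (EuclideanSpace ℝ (Fin 3))) :
    {e : Sym2 (EuclideanSpace ℝ (Fin 3)) | ∃ p ∈ P, ∃ q ∈ P, dist p q = 1 ∧ e = s(p, q)} ⊆
      ((P ×ˢ P).image (fun pq => s(pq.1, pq.2)) : Finset _) := by
  classical
  rintro e ⟨p, hp, q, hq, -, rfl⟩
  simp only [coe_image, coe_product, Set.mem_image, Set.mem_prod, mem_coe]
  exact ⟨(p, q), ⟨hp, hq⟩, rfl⟩

lemma unit_le (P : Finset (EuclideanSpace ℝ (Fin 3))) : unitDistances P ≤ #P * #P := by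
  classical
  have h := Set.ncard_le_ncard (unit_finite P) (Finset.finite_toSet _)
  rw [Set.ncard_coe_finset] at h
  exact h.trans (card_image_le.trans (card_product _ _).le)

lemma le_u3 (P : Finset (EuclideanSpace ℝ (Fin 3))) (hP : GeneralPosition P) :
    unitDistances P ≤ u3 #P := by
  refine le_csSup ⟨#P * #P, ?_⟩ ⟨P, rfl, hP, rfl⟩
  rintro k ⟨Q, hQ, -, rfl⟩
  rw [← hQ]
  exact unit_le Q

/-- A set of at least four indices with positive heights has an injective image in general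
position. -/
lemma realise (I : Finset Ix) (hI : ∀ i ∈ I, 0 < i.2.2) (hI4 : 4 ≤ #I) :
    ∃ s t : ℝ, 0 < t ∧ Set.InjOn (ptI s t) I ∧ GeneralPosition (I.image (ptI s t)) := by
  classical
  obtain ⟨s, t, ht, hgen⟩ := exists_centre I hI
  refine ⟨s, t, ht, ?_, ?_⟩
  · intro i hi j hj hij
    by_contra hne
    have h2 : 1 < #(I \ {i, j}) := by
      have h3 := le_card_sdiff {i, j} I
      have h4 : #({i, j} : Finset Ix) ≤ 2 := card_le_two
      omega
    obtain ⟨k, hk, l, hl, hkl⟩ := one_lt_card.1 h2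
    rw [Finset.mem_sdiff, Finset.mem_insert, Finset.mem_singleton, not_or] at hk hl
    have hg := hgen ![i, j, k, l] (fun m => by
      fin_cases m
      exacts [hi, hj, hk.1, hl.1]) (by
      intro a b hab
      fin_cases a <;> fin_cases b <;> first
        | rfl
        | exact absurd hab hne | exact absurd hab.symm hne
        | exact absurd hab hk.2.1 | exact absurd hab.symm hk.2.1
        | exact absurd hab hk.2.2 | exact absurd hab.symm hk.2.2
        | exact absurd hab hl.2.1 | exact absurd hab.symm hl.2.1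
        | exact absurd hab hl.2.2 | exact absurd hab.symm hl.2.2
        | exact absurd hab hkl | exact absurd hab.symm hkl)
    have := hg.injective (a₁ := 0) (a₂ := 1) (by simpa using hij)
    simp at this
  · intro H hH
    by_contra hc
    push Not at hc
    have hset : {p | p ∈ I.image (ptI s t) ∧ p ∈ H} =
        ((I.image (ptI s t)).filter (fun p => p ∈ H) : Finset _) := by
      ext p; simp only [Set.mem_ofPred_eq, coe_filter]
    rw [hset, Set.ncard_coe_finset] at hc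
    obtain ⟨S, hS, h4⟩ := exists_subset_card_eq (n := 4) (by omega : 4 ≤ #((I.image (ptI s t)).filter (fun p => p ∈ H)))
    let e : S ≃ Fin 4 := S.equivFinOfCardEq h4
    have hex : ∀ m : Fin 4, ∃ i ∈ I, ptI s t i = (e.symm m : EuclideanSpace ℝ (Fin 3)) :=
      fun m => mem_image.1 (mem_filter.1 (hS (e.symm m).2)).1
    choose g hg hg' using hex
    have hginj : Function.Injective g := by
      intro a b hab
      have : (e.symm a : EuclideanSpace ℝ (Fin 3)) = e.symm b := by rw [← hg', ← hg', hab]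
      exact e.symm.injective (Subtype.ext this)
    have h3 := (hgen g hg hginj).finrank_vectorSpan (n := 3) (by simp)
    have hsub : Set.range (fun m => ptI s t (g m)) ⊆ H := by
      rintro x ⟨m, rfl⟩
      simp only [hg']
      exact (mem_filter.1 (hS (e.symm m).2)).2
    have hle : vectorSpan ℝ (Set.range (fun m => ptI s t (g m))) ≤ H.direction :=
      vectorSpan_mono ℝ hsub
    have := Submodule.finrank_mono hle
    omega

/-- The construction with exactly `N` points. -/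
lemma count (N T : ℕ) (hT : 0 < T) (hN : 4 * T * T ≤ N) (E : Finset (ℕ × ℕ × ℕ))
    (hE : ∀ e ∈ E, e.1 ∣ T ∧ e.2.1 ∣ T ∧
        2 * (e.2.2 ^ 2 + e.1 ^ 2 + e.2.1 ^ 2) = 5 * (e.1 * e.2.1)) :
    #E * N ≤ 8 * #T.divisors * u3 N := by
  classical
  have hτ : 1 ≤ #T.divisors := card_pos.2 ⟨1, Nat.one_mem_divisors.2 hT.ne'⟩
  have hτ' : #T.divisors ≤ T := Nat.card_divisors_le_self T
  set τ := #T.divisors with hτdef
  set L := N / (2 * τ) with hL
  have hL1 : L * (2 * τ) ≤ N := Nat.div_mul_le_self _ _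
  have hL2 : N < (L + 1) * (2 * τ) := by
    have := Nat.lt_div_mul_add (a := N) (b := 2 * τ) (by omega)
    nlinarith
  have hL3 : 2 * T ≤ L := by
    rw [hL, Nat.le_div_iff_mul_le (by omega)]
    nlinarith
  let J : ℕ → Finset Ix := fun M =>
    univ ×ˢ (Ico (0 : ℤ) M ×ˢ T.divisors.image (fun d : ℕ => (d : ℤ)))
  have hJcard : ∀ M, #(J M) = M * (2 * τ) := by
    intro M
    simp only [J, card_product, card_univ, Fintype.card_bool, Int.card_Ico]
    rw [card_image_of_injective _ Nat.cast_injective]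
    have : ((M : ℤ) - 0).toNat = M := by omega
    rw [this]; ring
  have hJsub : J L ⊆ J (L + 1) := by
    intro i hi
    simp only [J, mem_product, mem_univ, mem_Ico, true_and] at hi ⊢
    refine ⟨⟨hi.1.1, ?_⟩, hi.2⟩
    have := hi.1.2
    push_cast
    omega
  obtain ⟨I, hI1, hI2, hIcard⟩ := exists_subsuperset_card_eq hJsub (n := N)
    (by rw [hJcard]; exact hL1) (by rw [hJcard]; exact hL2.le)
  have memI : ∀ {e : Bool} {x : ℤ} {d : ℕ}, 0 ≤ x → x < L → d ∣ T → (e, x, (d : ℤ)) ∈ I := by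
    intro e x d h0 h1 hd
    apply hI1
    simp only [J, mem_product, mem_univ, mem_Ico, mem_image, true_and]
    exact ⟨⟨h0, h1⟩, d, Nat.mem_divisors.2 ⟨hd, hT.ne'⟩, rfl⟩
  have hI : ∀ i ∈ I, 0 < i.2.2 := by
    intro i hi
    have hi := hI2 hi
    simp only [J, mem_product, mem_image] at hi
    obtain ⟨-, -, d, hd, h⟩ := hi
    rw [← h]; exact_mod_cast Nat.pos_of_mem_divisors hd
  have hI4 : 4 ≤ #I := by rw [hIcard]; nlinarith
  obtain ⟨s, t, ht, hinj, hgen⟩ := realise I hI hI4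
  have hPcard : #(I.image (ptI s t)) = N := (card_image_of_injOn hinj).trans hIcard
  have hu := le_u3 _ hgen
  rw [hPcard] at hu
  let ψ : (ℕ × ℕ × ℕ) × ℕ → Sym2 (EuclideanSpace ℝ (Fin 3)) := fun q =>
    s(ptI s t (true, (q.2 : ℤ), (q.1.1 : ℤ)), ptI s t (false, (q.2 + q.1.2.2 : ℤ), (q.1.2.1 : ℤ)))
  have hmem : ∀ q ∈ E ×ˢ range (L - T), ((true, (q.2 : ℤ), (q.1.1 : ℤ)) : Ix) ∈ I ∧
      ((false, (q.2 + q.1.2.2 : ℤ), (q.1.2.1 : ℤ)) : Ix) ∈ I := by
    intro q hq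
    rw [mem_product, mem_range] at hq
    obtain ⟨d1, d2, he⟩ := hE _ hq.1
    have u1 := Nat.le_of_dvd hT d1
    have u2 := Nat.le_of_dvd hT d2
    have hh : q.1.2.2 ≤ T := by
      by_contra hc
      push Not at hc
      have a1 : q.1.1 * q.1.2.1 ≤ T * T := Nat.mul_le_mul u1 u2
      have a2 : T * T < q.1.2.2 * q.1.2.2 := Nat.mul_lt_mul'' hc hc
      zify at he a1 a2
      nlinarith [sq_nonneg ((q.1.1 : ℤ) - q.1.2.1)]
    exact ⟨memI (by omega) (by omega) d1, memI (by omega) (by omega) d2⟩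
  have hψinj : Set.InjOn ψ (E ×ˢ range (L - T) : Finset _) := by
    intro q hq q' hq' h
    simp only [ψ, Sym2.eq_iff] at h
    rcases h with h | h
    · have a1 := hinj (hmem q hq).1 (hmem q' hq').1 h.1
      have a2 := hinj (hmem q hq).2 (hmem q' hq').2 h.2
      simp only [Prod.mk.injEq, Nat.cast_inj, true_and] at a1 a2
      refine Prod.ext (Prod.ext a1.2 (Prod.ext a2.2 ?_)) a1.1
      omega
    · have a1 := hinj (hmem q hq).1 (hmem q' hq').2 h.1
      simp at a1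
  have hψsub : ((E ×ˢ range (L - T)).image ψ : Set _) ⊆
      {e : Sym2 (EuclideanSpace ℝ (Fin 3)) | ∃ p ∈ I.image (ptI s t), ∃ q ∈ I.image (ptI s t),
        dist p q = 1 ∧ e = s(p, q)} := by
    intro pq hpq
    obtain ⟨q, hq, rfl⟩ := mem_image.1 (mem_coe.1 hpq)
    refine ⟨_, mem_image_of_mem _ (hmem q hq).1, _, mem_image_of_mem _ (hmem q hq).2, ?_, rfl⟩
    have a1 := hI _ (hmem q hq).1
    have a2 := hI _ (hmem q hq).2
    obtain ⟨-, -, he⟩ := hE _ (mem_product.1 hq).1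
    simp only at a1 a2
    simp only [ptI]
    refine dist_pt (by exact_mod_cast a1) (by exact_mod_cast a2) ht ?_
    have : (2 : ℝ) * ((q.1.2.2 : ℝ) ^ 2 + (q.1.1 : ℝ) ^ 2 + (q.1.2.1 : ℝ) ^ 2)
        = 5 * ((q.1.1 : ℝ) * q.1.2.1) := by exact_mod_cast he
    push_cast
    linear_combination this
  have hcount : #E * (L - T) ≤ unitDistances (I.image (ptI s t)) := by
    have := Set.ncard_le_ncard hψsub
      ((Finset.finite_toSet _).subset (unit_finite (I.image (ptI s t))))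
    rwa [Set.ncard_coe_finset, card_image_of_injOn hψinj, card_product, card_range] at this
  have h5 : N ≤ 8 * τ * (L - T) := by
    obtain ⟨D, hD⟩ : ∃ D, L = T + D := ⟨L - T, by omega⟩
    have h6 : L - T = D := by omega
    rw [h6]
    have h7 : L + 1 ≤ 4 * D := by omega
    nlinarith
  calc #E * N ≤ #E * (8 * τ * (L - T)) := Nat.mul_le_mul_left _ h5
    _ = 8 * τ * (#E * (L - T)) := by ring
    _ ≤ 8 * τ * u3 N := Nat.mul_le_mul_left _ (hcount.trans hu)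

theorem lower (K N : ℕ) (hK : 2 ≤ K)
    (hN : 4 ^ (48 * K * (2 ^ (160 * (2 * K + 1) ^ 2)) ^ 2 + 1) ≤ N) :
    (K : ℝ) * (N * Real.log N) ≤ 30000 * u3 N := by
  classical
  have hn0 := fun n => large_n K n hK
  generalize 2 ^ (160 * (2 * K + 1) ^ 2) = n0 at hN hn0
  have hex : ∃ m : ℕ, N < 4 ^ (48 * K * (m + 1) ^ 2 + 1) := by
    refine ⟨N, (Nat.lt_pow_self (by norm_num : 1 < 4)).trans_le
      (Nat.pow_le_pow_right (by norm_num) ?_)⟩
    nlinarith
  set m := Nat.find hex with hm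
  have hm1 : N < 4 ^ (48 * K * (m + 1) ^ 2 + 1) := Nat.find_spec hex
  have hm0 : n0 ≤ m := by
    by_contra hc
    push Not at hc
    have : 4 ^ (48 * K * (m + 1) ^ 2 + 1) ≤ 4 ^ (48 * K * n0 ^ 2 + 1) := by
      refine Nat.pow_le_pow_right (by norm_num) ?_
      have : (m + 1) ^ 2 ≤ n0 ^ 2 := Nat.pow_le_pow_left hc _
      nlinarith
    omega
  obtain ⟨h2m, h20, hM⟩ := hn0 m hm0
  have hm2 : 4 ^ (48 * K * m ^ 2 + 1) ≤ N := by
    have := Nat.find_min hex (m := m - 1) (by omega)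
    rw [show m - 1 + 1 = m by omega] at this
    omega
  obtain ⟨T, hT, hTle, E, hE, hcard⟩ := edges_of K m hK h2m h20 hM
  have hTN : 4 * T * T ≤ N := by
    calc 4 * T * T ≤ 4 * 4 ^ (24 * K * m ^ 2) * 4 ^ (24 * K * m ^ 2) :=
          Nat.mul_le_mul (Nat.mul_le_mul_left _ hTle) hTle
      _ = 4 ^ (48 * K * m ^ 2 + 1) := by ring
      _ ≤ N := hm2
  have hc := count N T hT hTN E hE
  have hc' : (#E : ℝ) * N ≤ 8 * #T.divisors * u3 N := by exact_mod_cast hc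
  have hτ : (0 : ℝ) < #T.divisors := by
    exact_mod_cast card_pos.2 ⟨1, Nat.one_mem_divisors.2 hT.ne'⟩
  have hN0 : (0 : ℝ) < N := by
    have : 0 < N := lt_of_lt_of_le (by positivity) hTN
    exact_mod_cast this
  have hlog : Real.log N ≤ 220 * K * m ^ 2 := by
    have h1 : N ≤ 4 ^ (110 * K * m ^ 2) := by
      refine hm1.le.trans (Nat.pow_le_pow_right (by norm_num) ?_)
      have h3 : 4 * (m + 1) ^ 2 ≤ 9 * m ^ 2 := by nlinarith
      have h4 : 1 ≤ K * m ^ 2 := Nat.mul_pos (by omega) (by positivity)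
      nlinarith
    have h2 : (N : ℝ) ≤ (4 : ℝ) ^ (110 * K * m ^ 2) := by exact_mod_cast h1
    have h4 := Real.log_le_log hN0 h2
    rw [Real.log_pow] at h4
    have h5 : Real.log 4 ≤ 2 := by
      rw [show (4 : ℝ) = 2 ^ 2 by norm_num, Real.log_pow]
      have := Real.log_two_lt_d9
      push_cast; linarith
    have h6 : (0 : ℝ) ≤ ((110 * K * m ^ 2 : ℕ) : ℝ) := by positivity
    have := mul_le_mul_of_nonneg_left h5 h6
    push_cast at h4 this ⊢
    linarith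
  push_cast at hcard
  have hK0 : (0 : ℝ) < K := by exact_mod_cast (by omega : 0 < K)
  have s1 : ((K : ℝ) * m) ^ 2 * N ≤ 128 * u3 N := by
    have a1 : ((K : ℝ) * m) ^ 2 * #T.divisors * N ≤ 16 * #E * N :=
      mul_le_mul_of_nonneg_right hcard hN0.le
    have a2 : ((K : ℝ) * m) ^ 2 * N * #T.divisors ≤ 128 * u3 N * #T.divisors := by nlinarith
    exact le_of_mul_le_mul_right a2 hτ
  have s2 : (K : ℝ) * (N * Real.log N) ≤ K * (N * (220 * K * m ^ 2)) := by gcongr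
  have s3 : (0 : ℝ) ≤ u3 N := by positivity
  nlinarith

lemma threshold (K N : ℕ) (hK : 2 ≤ K) (hN : 1 < Real.log N)
    (h : 2100 * (K : ℝ) ^ 2 ≤ Real.log (Real.log N)) :
    4 ^ (48 * K * (2 ^ (160 * (2 * K + 1) ^ 2)) ^ 2 + 1) ≤ N := by
  have h1 : 2 * (48 * K * (2 ^ (160 * (2 * K + 1) ^ 2)) ^ 2 + 1) ≤ 2 ^ (2100 * K ^ 2) := by
    have a1 : K < 2 ^ K := Nat.lt_two_pow_self
    have a2 : 1 ≤ (2 ^ (160 * (2 * K + 1) ^ 2)) ^ 2 := Nat.one_le_pow _ _ (by positivity)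
    have a3 : 7 + K + 160 * (2 * K + 1) ^ 2 * 2 ≤ 2100 * K ^ 2 := by
      have b1 : 2 * K ≤ K ^ 2 := by rw [sq]; exact Nat.mul_le_mul_right _ hK
      have b2 : (2 * K + 1) ^ 2 = 4 * K ^ 2 + 4 * K + 1 := by ring
      rw [b2]
      generalize K ^ 2 = Q at b1 ⊢
      omega
    calc 2 * (48 * K * (2 ^ (160 * (2 * K + 1) ^ 2)) ^ 2 + 1)
        ≤ 2 ^ 7 * 2 ^ K * (2 ^ (160 * (2 * K + 1) ^ 2)) ^ 2 := by
          generalize (2 ^ (160 * (2 * K + 1) ^ 2)) ^ 2 = A at a2 ⊢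
          generalize 2 ^ K = B at a1 ⊢
          nlinarith
      _ = 2 ^ (7 + K + 160 * (2 * K + 1) ^ 2 * 2) := by rw [← pow_mul, ← pow_add, ← pow_add]
      _ ≤ 2 ^ (2100 * K ^ 2) := Nat.pow_le_pow_right (by norm_num) a3
  generalize 48 * K * (2 ^ (160 * (2 * K + 1) ^ 2)) ^ 2 + 1 = X at h1 ⊢
  have hN0 : (0 : ℝ) < N := by
    rcases Nat.eq_zero_or_pos N with h0 | h0
    · rw [h0] at hN; norm_num at hN
    · exact_mod_cast h0
  have e2 : (2 : ℝ) ≤ Real.exp 1 := by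
    have := Real.add_one_le_exp (1 : ℝ)
    linarith
  have h2 : (2 : ℝ) * X ≤ Real.log N := by
    have b1 : (2 : ℝ) * X ≤ 2 ^ (2100 * K ^ 2) := by exact_mod_cast h1
    have b2 : (2 : ℝ) ^ (2100 * K ^ 2) ≤ Real.exp 1 ^ (2100 * K ^ 2) := by gcongr
    rw [← Real.exp_nat_mul, mul_one] at b2
    have b3 : Real.exp ((2100 * K ^ 2 : ℕ) : ℝ) ≤ Real.exp (Real.log (Real.log N)) :=
      Real.exp_le_exp.2 (by push_cast; exact h)
    rw [Real.exp_log (by linarith)] at b3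
    linarith
  have h3 : (4 : ℝ) ^ X ≤ N := by
    have b1 : (4 : ℝ) ^ X = 2 ^ (2 * X) := by rw [pow_mul]; norm_num
    have b2 : (2 : ℝ) ^ (2 * X) ≤ Real.exp 1 ^ (2 * X) := by gcongr
    rw [← Real.exp_nat_mul, mul_one] at b2
    have b3 : Real.exp ((2 * X : ℕ) : ℝ) ≤ Real.exp (Real.log N) :=
      Real.exp_le_exp.2 (by push_cast; exact h2)
    rw [Real.exp_log hN0] at b3
    linarith
  exact_mod_cast h3

theorem main : ∃ c : ℝ, 0 < c ∧ ∃ n0 : ℕ, ∀ n : ℕ, n0 ≤ n →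
    c * (n * Real.log n * Real.sqrt (Real.log (Real.log n))) ≤ u3 n := by
  have ht : Tendsto (fun n : ℕ => Real.log (n : ℝ)) atTop atTop :=
    Real.tendsto_log_atTop.comp tendsto_natCast_atTop_atTop
  have ht2 : Tendsto (fun n : ℕ => Real.log (Real.log (n : ℝ))) atTop atTop :=
    Real.tendsto_log_atTop.comp ht
  obtain ⟨n0, hn0⟩ := eventually_atTop.1
    ((ht.eventually (eventually_gt_atTop 1)).and (ht2.eventually (eventually_ge_atTop 10000)))
  refine ⟨1 / 3000000, by norm_num, n0, fun n hn => ?_⟩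
  obtain ⟨h1, h2⟩ := hn0 n hn
  set y := Real.sqrt (Real.log (Real.log n)) with hy
  have hy2 : y ^ 2 = Real.log (Real.log n) := Real.sq_sqrt (by linarith)
  have hy0 : 100 ≤ y := Real.le_sqrt_of_sq_le (by linarith)
  set K := ⌊y / 50⌋₊ with hK
  have hK1 : (K : ℝ) ≤ y / 50 := Nat.floor_le (by positivity)
  have hK3 : y / 50 < K + 1 := Nat.lt_floor_add_one _
  have hK2 : 2 ≤ K := Nat.le_floor (by push_cast; linarith)
  have hK4 : (2 : ℝ) ≤ K := by exact_mod_cast hK2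
  have h7 : 2100 * (K : ℝ) ^ 2 ≤ y ^ 2 := by nlinarith
  have h3 := lower K n hK2 (threshold K n hK2 h1 (h7.trans hy2.le))
  have h4 : 0 ≤ (n : ℝ) * Real.log n := by positivity
  have h5 : y ≤ 100 * K := by linarith
  have h6 : (n : ℝ) * Real.log n * y ≤ n * Real.log n * (100 * K) :=
    mul_le_mul_of_nonneg_left h5 h4
  nlinarith

end Pool.Agent.MP_8b47e7_co.H27
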