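import Mathlib

-- part MP_8b47e7_co.H99.Det
section

/-! Determinant lemmas and elementary plane geometry used for the genericity argument. -/

set_option autoImplicit false

namespace Pool.Agent.MP_8b47e7_co.H99

open Filter Topology

/-- Explicit 3 by 3 determinant. -/
def d3 {R : Type*} [CommRing R] (a1 b1 c1 a2 b2 c2 a3 b3 c3 : R) : R :=
  a1 * (b2 * c3 - c2 * b3) - b1 * (a2 * c3 - c2 * a3) + c1 * (a2 * b3 - b2 * a3)

/-- Explicit 4 by 4 determinant of four rows. -/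
def d4 {R : Type*} [CommRing R] (p q r s : R × R × R × R) : R :=
  p.1 * d3 q.2.1 q.2.2.1 q.2.2.2 r.2.1 r.2.2.1 r.2.2.2 s.2.1 s.2.2.1 s.2.2.2
  - p.2.1 * d3 q.1 q.2.2.1 q.2.2.2 r.1 r.2.2.1 r.2.2.2 s.1 s.2.2.1 s.2.2.2
  + p.2.2.1 * d3 q.1 q.2.1 q.2.2.2 r.1 r.2.1 r.2.2.2 s.1 s.2.1 s.2.2.2
  - p.2.2.2 * d3 q.1 q.2.1 q.2.2.1 r.1 r.2.1 r.2.2.1 s.1 s.2.1 s.2.2.1

section
variable {R : Type*} [CommRing R]

lemma d4_swap12 (p q r s : R × R × R × R) : d4 q p r s = - d4 p q r s := by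
  simp only [d4, d3]; ring

lemma d4_swap23 (p q r s : R × R × R × R) : d4 p r q s = - d4 p q r s := by
  simp only [d4, d3]; ring

lemma d4_swap34 (p q r s : R × R × R × R) : d4 p q s r = - d4 p q r s := by
  simp only [d4, d3]; ring

end

lemma eventually_ne_of_analytic {𝕜 : Type*} [RCLike 𝕜] (f : 𝕜 → 𝕜)
    (hf : ∀ z, AnalyticAt 𝕜 f z) (z0 : 𝕜) (h0 : f z0 ≠ 0) : ∀ᶠ z in 𝓝[≠] (0 : 𝕜), f z ≠ 0 := by
  rcases (hf 0).eventually_eq_zero_or_eventually_ne_zero with h | h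
  · exfalso
    have : AnalyticOnNhd 𝕜 f Set.univ := fun z _ => hf z
    exact h0 (this.eqOn_zero_of_preconnected_of_eventuallyEq_zero isPreconnected_univ
      (Set.mem_univ 0) h (Set.mem_univ z0))
  · exact h

lemma eventually_ne_real_of_complex (f : ℂ → ℂ)
    (hf : ∀ z, AnalyticAt ℂ f z) (z0 : ℂ) (h0 : f z0 ≠ 0) :
    ∀ᶠ s : ℝ in 𝓝[≠] (0 : ℝ), f s ≠ 0 := by
  have h := eventually_ne_of_analytic f hf z0 h0
  have ht : Tendsto (fun s : ℝ => (s : ℂ)) (𝓝[≠] 0) (𝓝[≠] 0) := by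
    apply tendsto_nhdsWithin_of_tendsto_nhds_of_eventually_within
    · have := Complex.continuous_ofReal.tendsto 0
      simpa using this.mono_left nhdsWithin_le_nhds
    · filter_upwards [self_mem_nhdsWithin] with s hs
      simpa using hs
  exact ht.eventually h

/-- Three distinct points of the plane have affinely independent lifts to the paraboloid. -/
lemma paraboloid_indep {x1 y1 x2 y2 x3 y3 n1 n2 n3 : ℝ}
    (h12 : (x1, y1) ≠ (x2, y2)) (h13 : (x1, y1) ≠ (x3, y3)) (h23 : (x2, y2) ≠ (x3, y3))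
    (e0 : n1 + n2 + n3 = 0) (e1 : n1 * x1 + n2 * x2 + n3 * x3 = 0)
    (e2 : n1 * y1 + n2 * y2 + n3 * y3 = 0)
    (e3 : n1 * (x1 ^ 2 + y1 ^ 2) + n2 * (x2 ^ 2 + y2 ^ 2) + n3 * (x3 ^ 2 + y3 ^ 2) = 0) :
    n1 = 0 ∧ n2 = 0 ∧ n3 = 0 := by
  have pos : ∀ {a b c d : ℝ}, (a, b) ≠ (c, d) → 0 < (a - c) ^ 2 + (b - d) ^ 2 := by
    intro a b c d h
    by_contra hc
    have h1 : a - c = 0 := by nlinarith [sq_nonneg (a - c), sq_nonneg (b - d)]
    have h2 : b - d = 0 := by nlinarith [sq_nonneg (a - c), sq_nonneg (b - d)]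
    exact h (by rw [sub_eq_zero.1 h1, sub_eq_zero.1 h2])
  have p12 := pos h12
  have p13 := pos h13
  have p23 := pos h23
  set A := (x1 - x2) ^ 2 + (y1 - y2) ^ 2 with hA
  set B := (x1 - x3) ^ 2 + (y1 - y3) ^ 2 with hB
  set C := (x2 - x3) ^ 2 + (y2 - y3) ^ 2 with hC
  have f1 : n2 * A + n3 * B = 0 := by
    rw [hA, hB]; linear_combination e3 - 2 * x1 * e1 - 2 * y1 * e2 + (x1 ^ 2 + y1 ^ 2) * e0
  have f2 : n1 * A + n3 * C = 0 := by
    rw [hA, hC]; linear_combination e3 - 2 * x2 * e1 - 2 * y2 * e2 + (x2 ^ 2 + y2 ^ 2) * e0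
  have f3 : n1 * B + n2 * C = 0 := by
    rw [hB, hC]; linear_combination e3 - 2 * x3 * e1 - 2 * y3 * e2 + (x3 ^ 2 + y3 ^ 2) * e0
  have g3 : n3 * (2 * B * C) = 0 := by linear_combination C * f1 + B * f2 - A * f3
  have g2 : n2 * (2 * A * C) = 0 := by linear_combination C * f1 - B * f2 + A * f3
  have g1 : n1 * (2 * A * B) = 0 := by linear_combination - C * f1 + B * f2 + A * f3
  exact ⟨(mul_eq_zero.1 g1).resolve_right (by positivity),
    (mul_eq_zero.1 g2).resolve_right (by positivity),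
    (mul_eq_zero.1 g3).resolve_right (by positivity)⟩

/-- For three distinct points of the upper half plane the quadratic `det (n, x - s, y)` in `s`
is not identically zero. -/
lemma exists_d3_ne {x1 y1 x2 y2 x3 y3 : ℝ} (hy1 : 0 < y1)
    (h12 : (x1, y1) ≠ (x2, y2)) (h13 : (x1, y1) ≠ (x3, y3)) (h23 : (x2, y2) ≠ (x3, y3)) :
    ∃ s : ℝ, d3 ((x1 - s) ^ 2 + y1 ^ 2) (x1 - s) y1 ((x2 - s) ^ 2 + y2 ^ 2) (x2 - s) y2
      ((x3 - s) ^ 2 + y3 ^ 2) (x3 - s) y3 ≠ 0 := by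
  by_contra hc
  push Not at hc
  have a0 := hc 0
  have a1 := hc 1
  have a2 := hc (-1)
  simp only [d3] at a0 a1 a2
  obtain ⟨u1, u2, u3⟩ := paraboloid_indep (n1 := y2 - y3) (n2 := y3 - y1) (n3 := y1 - y2)
    h12 h13 h23 (by ring) (by linear_combination a0 - (a1 + a2) / 2) (by ring)
    (by linear_combination (a1 - a2) / 2)
  obtain ⟨v1, v2, v3⟩ := paraboloid_indep (n1 := x2 * y3 - x3 * y2) (n2 := x3 * y1 - x1 * y3)
    (n3 := x1 * y2 - x2 * y1)
    h12 h13 h23 (by linear_combination a0 - (a1 + a2) / 2) (by ring) (by ring)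
    (by linear_combination a0)
  have hy : y2 = y1 := by linarith
  have : (x1 - x2) * y1 = 0 := by rw [hy] at v3; linarith
  have hx : x1 = x2 := sub_eq_zero.1 ((mul_eq_zero.1 this).resolve_right hy1.ne')
  exact h12 (by rw [hx, hy])

/-- Twice the hyperbolic cosine of the hyperbolic distance. -/
noncomputable def kap (x1 y1 x2 y2 : ℝ) : ℝ := ((x1 - x2) ^ 2 + y1 ^ 2 + y2 ^ 2) / (y1 * y2)

/-- Four distinct points of the hyperbolic plane are not equidistant. -/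
lemma not_equidistant {x1 y1 x2 y2 x3 y3 x4 y4 k : ℝ} (hy1 : 0 < y1) (hy2 : 0 < y2)
    (hy3 : 0 < y3) (hy4 : 0 < y4) (h12 : (x1, y1) ≠ (x2, y2))
    (k12 : kap x1 y1 x2 y2 = k) (k13 : kap x1 y1 x3 y3 = k) (k14 : kap x1 y1 x4 y4 = k)
    (k23 : kap x2 y2 x3 y3 = k) (k24 : kap x2 y2 x4 y4 = k) (k34 : kap x3 y3 x4 y4 = k) :
    False := by
  have gram : ∀ u1 m1 c1 u2 m2 c2 u3 m3 c3 u4 m4 c4 : ℝ,
      d4 (u1 * c1 + c1 * u1 - 2 * m1 * m1, u1 * c2 + c1 * u2 - 2 * m1 * m2,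
          u1 * c3 + c1 * u3 - 2 * m1 * m3, u1 * c4 + c1 * u4 - 2 * m1 * m4)
        (u1 * c2 + c1 * u2 - 2 * m1 * m2, u2 * c2 + c2 * u2 - 2 * m2 * m2,
          u2 * c3 + c2 * u3 - 2 * m2 * m3, u2 * c4 + c2 * u4 - 2 * m2 * m4)
        (u1 * c3 + c1 * u3 - 2 * m1 * m3, u2 * c3 + c2 * u3 - 2 * m2 * m3,
          u3 * c3 + c3 * u3 - 2 * m3 * m3, u3 * c4 + c3 * u4 - 2 * m3 * m4)
        (u1 * c4 + c1 * u4 - 2 * m1 * m4, u2 * c4 + c2 * u4 - 2 * m2 * m4,
          u3 * c4 + c3 * u4 - 2 * m3 * m4, u4 * c4 + c4 * u4 - 2 * m4 * m4) = 0 := by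
    intros; simp only [d4, d3]; ring
  have off : ∀ {a b c d : ℝ}, 0 < b → 0 < d →
      (1 / b) * ((c ^ 2 + d ^ 2) / d) + ((a ^ 2 + b ^ 2) / b) * (1 / d) - 2 * (a / b) * (c / d)
        = kap a b c d := by
    intro a b c d hb hd
    unfold kap; field_simp; ring
  have dg : ∀ {a b : ℝ}, 0 < b →
      (1 / b) * ((a ^ 2 + b ^ 2) / b) + ((a ^ 2 + b ^ 2) / b) * (1 / b) - 2 * (a / b) * (a / b)
        = 2 := by
    intro a b hb
    field_simp; ring
  have g := gram (1 / y1) (x1 / y1) ((x1 ^ 2 + y1 ^ 2) / y1) (1 / y2) (x2 / y2)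
    ((x2 ^ 2 + y2 ^ 2) / y2) (1 / y3) (x3 / y3) ((x3 ^ 2 + y3 ^ 2) / y3)
    (1 / y4) (x4 / y4) ((x4 ^ 2 + y4 ^ 2) / y4)
  rw [dg hy1, dg hy2, dg hy3, dg hy4, off hy1 hy2, off hy1 hy3, off hy1 hy4, off hy2 hy3,
    off hy2 hy4, off hy3 hy4, k12, k13, k14, k23, k24, k34] at g
  have g2 : (2 - k) ^ 3 * (2 + 3 * k) = 0 := by
    simp only [d4, d3] at g; linear_combination g
  have hk : 0 < k := by rw [← k12]; unfold kap; positivity
  have hk2 : k = 2 := by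
    have := (mul_eq_zero.1 g2).resolve_right (by positivity)
    have := pow_eq_zero_iff (by norm_num) |>.1 this
    linarith
  rw [hk2] at k12
  unfold kap at k12
  rw [div_eq_iff (by positivity)] at k12
  have h1 : x1 - x2 = 0 := by nlinarith [sq_nonneg (x1 - x2), sq_nonneg (y1 - y2)]
  have h2 : y1 - y2 = 0 := by nlinarith [sq_nonneg (x1 - x2), sq_nonneg (y1 - y2)]
  exact h12 (by rw [sub_eq_zero.1 h1, sub_eq_zero.1 h2])

/-- Leading row for four points on the same surface. -/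
def rowc {R : Type*} [CommRing R] (l x y s : R) : R × R × R × R :=
  (((x - s) ^ 2 + y ^ 2) + (x - s) ^ 2 + l * y ^ 2, (x - s) * ((x - s) ^ 2 + y ^ 2),
    y * ((x - s) ^ 2 + y ^ 2), ((x - s) ^ 2 + y ^ 2) ^ 2)

lemma centre_of_vanish {l x1 y1 x2 y2 x3 y3 x4 y4 : ℝ} (hl : l ≠ 1) (hy1 : 0 < y1)
    (hy2 : 0 < y2) (hy3 : 0 < y3) (hy4 : 0 < y4)
    (h12 : (x1, y1) ≠ (x2, y2)) (h13 : (x1, y1) ≠ (x3, y3)) (h14 : (x1, y1) ≠ (x4, y4))
    (h23 : (x2, y2) ≠ (x3, y3)) (h24 : (x2, y2) ≠ (x4, y4)) (h34 : (x3, y3) ≠ (x4, y4))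
    (h : ∀ s : ℂ, d4 (rowc (l : ℂ) x1 y1 s) (rowc (l : ℂ) x2 y2 s) (rowc (l : ℂ) x3 y3 s)
      (rowc (l : ℂ) x4 y4 s) = 0) :
    kap x1 y1 x2 y2 = kap x1 y1 x3 y3 ∧ kap x1 y1 x2 y2 = kap x1 y1 x4 y4 := by
  set s : ℂ := x1 + y1 * Complex.I with hs
  have h0 := h s
  have hn1 : ((x1 : ℂ) - s) ^ 2 + (y1 : ℂ) ^ 2 = 0 := by
    rw [hs]; linear_combination (y1 : ℂ) ^ 2 * Complex.I_sq
  have hn : ∀ {x y : ℝ}, 0 < y → (x1, y1) ≠ (x, y) → ((x : ℂ) - s) ^ 2 + (y : ℂ) ^ 2 ≠ 0 := by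
    intro x y hy hne hz
    have hre := congrArg Complex.re hz
    have him := congrArg Complex.im hz
    simp [hs, pow_two] at hre him
    have hx : x = x1 := by
      have : (x - x1) * y1 = 0 := by linarith
      exact sub_eq_zero.1 ((mul_eq_zero.1 this).resolve_right hy1.ne')
    have hyy : y = y1 := by
      rw [hx] at hre
      have : (y - y1) * (y + y1) = 0 := by linarith
      exact sub_eq_zero.1 ((mul_eq_zero.1 this).resolve_right (by positivity))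
    exact hne (by rw [hx, hyy])
  have n2 := hn hy2 h12
  have n3 := hn hy3 h13
  have n4 := hn hy4 h14
  have hfac : ((l : ℂ) - 1) * (y1 : ℂ) ^ 2 * ((((x2 : ℂ) - s) ^ 2 + (y2 : ℂ) ^ 2) *
      (((x3 : ℂ) - s) ^ 2 + (y3 : ℂ) ^ 2) * (((x4 : ℂ) - s) ^ 2 + (y4 : ℂ) ^ 2)) *
      d3 ((x2 : ℂ) - s) y2 (((x2 : ℂ) - s) ^ 2 + (y2 : ℂ) ^ 2)
        ((x3 : ℂ) - s) y3 (((x3 : ℂ) - s) ^ 2 + (y3 : ℂ) ^ 2)
        ((x4 : ℂ) - s) y4 (((x4 : ℂ) - s) ^ 2 + (y4 : ℂ) ^ 2) = 0 := by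
    have hx : ((x1 : ℂ) - s) ^ 2 = - (y1 : ℂ) ^ 2 := by linear_combination hn1
    simp only [d4, rowc] at h0
    rw [hn1, hx] at h0
    generalize ((x2 : ℂ) - s) ^ 2 + (y2 : ℂ) ^ 2 = N2 at h0 ⊢
    generalize ((x3 : ℂ) - s) ^ 2 + (y3 : ℂ) ^ 2 = N3 at h0 ⊢
    generalize ((x4 : ℂ) - s) ^ 2 + (y4 : ℂ) ^ 2 = N4 at h0 ⊢
    simp only [d3] at h0 ⊢
    linear_combination h0
  have hl' : (l : ℂ) - 1 ≠ 0 := by
    rw [sub_ne_zero]; exact_mod_cast hl
  have hy1' : (y1 : ℂ) ^ 2 ≠ 0 := pow_ne_zero _ (by exact_mod_cast hy1.ne')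
  have hD := (mul_eq_zero.1 hfac).resolve_left
    (mul_ne_zero (mul_ne_zero hl' hy1') (mul_ne_zero (mul_ne_zero n2 n3) n4))
  have hre := congrArg Complex.re hD
  have him := congrArg Complex.im hD
  simp [hs, pow_two, d3] at hre him
  set m2 := (x2 - x1) ^ 2 + y2 ^ 2 + y1 ^ 2 with hm2
  set m3 := (x3 - x1) ^ 2 + y3 ^ 2 + y1 ^ 2 with hm3
  set m4 := (x4 - x1) ^ 2 + y4 ^ 2 + y1 ^ 2 with hm4
  have q0 : (m3 * y4 - m4 * y3) + (m4 * y2 - m2 * y4) + (m2 * y3 - m3 * y2) = 0 := by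
    have : y1 * ((m3 * y4 - m4 * y3) + (m4 * y2 - m2 * y4) + (m2 * y3 - m3 * y2)) = 0 := by
      rw [hm2, hm3, hm4]; linear_combination him
    exact (mul_eq_zero.1 this).resolve_left hy1.ne'
  have q1 : (m3 * y4 - m4 * y3) * (x2 - x1) + (m4 * y2 - m2 * y4) * (x3 - x1)
      + (m2 * y3 - m3 * y2) * (x4 - x1) = 0 := by
    rw [hm2, hm3, hm4]; linear_combination -hre
  obtain ⟨u1, u2, u3⟩ := paraboloid_indep (n1 := m3 * y4 - m4 * y3) (n2 := m4 * y2 - m2 * y4)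
    (n3 := m2 * y3 - m3 * y2) h23 h24 h34 q0 (by linear_combination q1 + x1 * q0) (by ring)
    (by
      have e2 : x2 ^ 2 + y2 ^ 2 = m2 + 2 * x1 * (x2 - x1) + (x1 ^ 2 - y1 ^ 2) := by
        rw [hm2]; ring
      have e3 : x3 ^ 2 + y3 ^ 2 = m3 + 2 * x1 * (x3 - x1) + (x1 ^ 2 - y1 ^ 2) := by
        rw [hm3]; ring
      have e4 : x4 ^ 2 + y4 ^ 2 = m4 + 2 * x1 * (x4 - x1) + (x1 ^ 2 - y1 ^ 2) := by
        rw [hm4]; ring
      rw [e2, e3, e4]
      linear_combination 2 * x1 * q1 + (x1 ^ 2 - y1 ^ 2) * q0)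
  unfold kap
  constructor
  · rw [div_eq_div_iff (by positivity) (by positivity)]
    rw [hm2, hm3] at u3
    linear_combination y1 * u3
  · rw [div_eq_div_iff (by positivity) (by positivity)]
    rw [hm2, hm4] at u2
    linear_combination - y1 * u2

lemma kap_symm (a b c d : ℝ) : kap a b c d = kap c d a b := by unfold kap; ring

lemma exists_rowc_ne {l x1 y1 x2 y2 x3 y3 x4 y4 : ℝ} (hl : l ≠ 1) (hy1 : 0 < y1)
    (hy2 : 0 < y2) (hy3 : 0 < y3) (hy4 : 0 < y4)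
    (h12 : (x1, y1) ≠ (x2, y2)) (h13 : (x1, y1) ≠ (x3, y3)) (h14 : (x1, y1) ≠ (x4, y4))
    (h23 : (x2, y2) ≠ (x3, y3)) (h24 : (x2, y2) ≠ (x4, y4)) (h34 : (x3, y3) ≠ (x4, y4)) :
    ∃ s : ℂ, d4 (rowc (l : ℂ) x1 y1 s) (rowc (l : ℂ) x2 y2 s) (rowc (l : ℂ) x3 y3 s)
      (rowc (l : ℂ) x4 y4 s) ≠ 0 := by
  by_contra hc
  push Not at hc
  obtain ⟨a1, a2⟩ := centre_of_vanish hl hy1 hy2 hy3 hy4 h12 h13 h14 h23 h24 h34 hc
  obtain ⟨b1, b2⟩ := centre_of_vanish hl hy2 hy1 hy3 hy4 h12.symm h23 h24 h13 h14 h34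
    (fun s => by rw [d4_swap12, hc, neg_zero])
  obtain ⟨c1, c2⟩ := centre_of_vanish hl hy3 hy1 hy2 hy4 h13.symm h23.symm h34 h12 h14 h24
    (fun s => by rw [d4_swap12, d4_swap23, hc, neg_zero, neg_zero])
  rw [kap_symm] at b1 b2 c1 c2
  exact not_equidistant hy1 hy2 hy3 hy4 h12 rfl a1.symm a2.symm b1.symm b2.symm
    (c2.symm.trans a1.symm)

end Pool.Agent.MP_8b47e7_co.H99

end

-- part MP_8b47e7_co.H99.Surf
section

/-! Two maps from the hyperbolic plane onto coaxial spindle tori in 3-space turning the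
hyperbolic distance `arcosh (5/4)` into the Euclidean distance one. -/

set_option autoImplicit false

namespace Pool.Agent.MP_8b47e7_co.H99

open Filter Topology

/-- The tube radius. -/
noncomputable def rr : ℝ := (3 + Real.sqrt 209) / 6

lemma rr_eq : 9 * rr ^ 2 - 9 * rr - 50 = 0 := by
  have := Real.sq_sqrt (show (0 : ℝ) ≤ 209 by norm_num)
  unfold rr; linear_combination this / 4

lemma rr_bounds : 2.8 < rr ∧ rr < 3 := by
  have h1 : (14 : ℝ) < Real.sqrt 209 := Real.lt_sqrt_of_sq_lt (by norm_num)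
  have h2 : Real.sqrt 209 < 15 := (Real.sqrt_lt' (by norm_num)).2 (by norm_num)
  unfold rr; constructor <;> linarith

lemma rr_irr (P Q : ℤ) (h : rr * P = Q) : P = 0 := by
  by_contra hP
  have hP' : (P : ℝ) ≠ 0 := by exact_mod_cast hP
  have hi : Irrational (Real.sqrt 209) := by norm_num
  apply hi
  refine ⟨6 * (Q : ℚ) / P - 3, ?_⟩
  push_cast
  unfold rr at h
  field_simp
  linear_combination -6 * h

/-- First vertical parameter. -/
noncomputable def bb : ℝ := Real.sqrt (25 * (50 - 9 * rr) / 144)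

lemma bb_sq : bb ^ 2 = 25 * (50 - 9 * rr) / 144 :=
  Real.sq_sqrt (by have := rr_bounds; linarith)

lemma bb_pos : 0 < bb := Real.sqrt_pos.2 (by have := rr_bounds; linarith)

/-- Horizontal parameter of the surface of a given type. -/
noncomputable def pa : Bool → ℝ
  | true => rr - 1
  | false => rr

/-- Vertical parameter of the surface of a given type. -/
noncomputable def pb : Bool → ℝ
  | true => bb
  | false => 125 / 18 / bb

/-- Denominator parameter of the surface of a given type. -/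
noncomputable def pl : Bool → ℝ
  | true => (34 - 9 * rr) / 16
  | false => (25 + 9 * rr) / 16

lemma pa_pos (e : Bool) : 0 < pa e := by
  have := rr_bounds; cases e <;> simp only [pa] <;> linarith

lemma pb_pos (e : Bool) : 0 < pb e := by
  have := bb_pos; cases e <;> simp only [pb] <;> positivity

lemma pl_pos (e : Bool) : 0 < pl e := by
  have := rr_bounds; cases e <;> simp only [pl] <;> linarith

lemma pl_ne (e : Bool) : pl e ≠ 1 := by
  have := rr_bounds; cases e <;> simp only [pl] <;> intro h <;> linarith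

lemma pb_mul : pb true * pb false = 125 / 18 := by
  have := bb_pos; simp only [pb]; field_simp

lemma pb_false_sq : pb false ^ 2 = 25 * (41 + 9 * rr) / 144 := by
  have h1 := bb_pos
  have h2 := bb_sq
  have h3 := rr_eq
  simp only [pb]
  rw [div_pow, div_eq_iff (by positivity), h2]
  linear_combination (625 / 2304) * h3

lemma unit_core {X0 X1 X2 Y0 Y1 Y2 : ℝ} (hX : X1 ^ 2 + X2 ^ 2 = X0 ^ 2 - 1)
    (hY : Y1 ^ 2 + Y2 ^ 2 = Y0 ^ 2 - 1) (hXY : X1 * Y1 + X2 * Y2 = X0 * Y0 - 5 / 4) :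
    (pa true * (X1 ^ 2 - X2 ^ 2) / (X0 ^ 2 + pl true)
        - pa false * (Y1 ^ 2 - Y2 ^ 2) / (Y0 ^ 2 + pl false)) ^ 2
      + (pa true * (2 * X1 * X2) / (X0 ^ 2 + pl true)
        - pa false * (2 * Y1 * Y2) / (Y0 ^ 2 + pl false)) ^ 2
      + (2 * pb true * X0 / (X0 ^ 2 + pl true) - 2 * pb false * Y0 / (Y0 ^ 2 + pl false)) ^ 2
      = 1 := by
  have h1 : (X1 ^ 2 - X2 ^ 2) ^ 2 + (2 * X1 * X2) ^ 2 = (X0 ^ 2 - 1) ^ 2 := by
    rw [← hX]; ring
  have h2 : (Y1 ^ 2 - Y2 ^ 2) ^ 2 + (2 * Y1 * Y2) ^ 2 = (Y0 ^ 2 - 1) ^ 2 := by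
    rw [← hY]; ring
  have h3 : (X1 ^ 2 - X2 ^ 2) * (Y1 ^ 2 - Y2 ^ 2) + (2 * X1 * X2) * (2 * Y1 * Y2)
      = 2 * (X0 * Y0 - 5 / 4) ^ 2 - (X0 ^ 2 - 1) * (Y0 ^ 2 - 1) := by
    rw [← hX, ← hY, ← hXY]; ring
  generalize X1 ^ 2 - X2 ^ 2 = U1 at h1 h3 ⊢
  generalize Y1 ^ 2 - Y2 ^ 2 = U2 at h2 h3 ⊢
  generalize 2 * X1 * X2 = V1 at h1 h3 ⊢
  generalize 2 * Y1 * Y2 = V2 at h2 h3 ⊢
  have hb1 : pb true ^ 2 = 25 * (50 - 9 * rr) / 144 := bb_sq
  have hb2 := pb_false_sq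
  have hb12 := pb_mul
  have hr := rr_eq
  have d1 : 0 < X0 ^ 2 + pl true := by have := pl_pos true; positivity
  have d2 : 0 < Y0 ^ 2 + pl false := by have := pl_pos false; positivity
  generalize pb true = b1 at hb1 hb12 ⊢
  generalize pb false = b2 at hb2 hb12 ⊢
  have e1 : pa true ^ 2 * (U1 ^ 2 + V1 ^ 2) + 4 * b1 ^ 2 * X0 ^ 2 =
      (rr ^ 2 - 1) * (X0 ^ 2 + pl true) ^ 2 - 2 * pa true * (X0 ^ 2 - 1) * (X0 ^ 2 + pl true) := by
    rw [h1, hb1]; simp only [pa, pl]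
    linear_combination ((-25/128) + (-25/36) * X0 ^ 2 + (59/256) * rr + (1/8) * rr * X0 ^ 2
      + (-9/256) * rr ^ 2) * hr
  have e2 : pa false ^ 2 * (U2 ^ 2 + V2 ^ 2) + 4 * b2 ^ 2 * Y0 ^ 2 =
      ((rr - 1) ^ 2 - 1) * (Y0 ^ 2 + pl false) ^ 2
        + 2 * pa false * (Y0 ^ 2 - 1) * (Y0 ^ 2 + pl false) := by
    rw [h2, hb2]; simp only [pa, pl]
    linear_combination ((-41/72) * Y0 ^ 2 + (-41/256) * rr + (-1/8) * rr * Y0 ^ 2
      + (-9/256) * rr ^ 2) * hr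
  have e3 : (rr ^ 2 + (rr - 1) ^ 2 - 3) * ((X0 ^ 2 + pl true) * (Y0 ^ 2 + pl false))
      - 2 * pa true * (X0 ^ 2 - 1) * (Y0 ^ 2 + pl false)
      + 2 * pa false * (Y0 ^ 2 - 1) * (X0 ^ 2 + pl true)
      = 2 * (pa true * pa false * (U1 * U2 + V1 * V2) + 4 * (b1 * b2) * X0 * Y0) := by
    rw [h3, hb12]; simp only [pa, pl]
    linear_combination ((25/128) + (1/8) * Y0 ^ 2 + (9/128) * rr + (-1/8) * rr * Y0 ^ 2
      + (1/8) * rr * X0 ^ 2 + (-9/128) * rr ^ 2 + (10/9) * X0 * Y0) * hr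
  generalize X0 ^ 2 + pl true = D1 at d1 e1 e3 ⊢
  generalize Y0 ^ 2 + pl false = D2 at d2 e2 e3 ⊢
  have key : (pa true * U1 * D2 - pa false * U2 * D1) ^ 2
      + (pa true * V1 * D2 - pa false * V2 * D1) ^ 2
      + (2 * b1 * X0 * D2 - 2 * b2 * Y0 * D1) ^ 2 = (D1 * D2) ^ 2 := by
    linear_combination D2 ^ 2 * e1 + D1 ^ 2 * e2 + D1 * D2 * e3
  have : (pa true * U1 / D1 - pa false * U2 / D2) ^ 2 + (pa true * V1 / D1 - pa false * V2 / D2) ^ 2
      + (2 * b1 * X0 / D1 - 2 * b2 * Y0 / D2) ^ 2 =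
      ((pa true * U1 * D2 - pa false * U2 * D1) ^ 2
      + (pa true * V1 * D2 - pa false * V2 * D1) ^ 2
      + (2 * b1 * X0 * D2 - 2 * b2 * Y0 * D1) ^ 2) / (D1 * D2) ^ 2 := by
    field_simp
  rw [this, key, div_self (by positivity)]

/-- Homogeneous coordinates of the image of `(x,y)` on the surface of type `e`, for the
centre `(s,t)`. -/
noncomputable def row (e : Bool) (x y s t : ℝ) : ℝ × ℝ × ℝ × ℝ :=
  (pa e * (((x - s) ^ 2 + y ^ 2 - t ^ 2) ^ 2 - 4 * t ^ 2 * (x - s) ^ 2),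
    4 * pa e * t * (x - s) * ((x - s) ^ 2 + y ^ 2 - t ^ 2),
    4 * pb e * t * y * ((x - s) ^ 2 + y ^ 2 + t ^ 2),
    ((x - s) ^ 2 + y ^ 2 + t ^ 2) ^ 2 + 4 * pl e * t ^ 2 * y ^ 2)

lemma row_last_pos (e : Bool) {x y s t : ℝ} (hy : 0 < y) : 0 < (row e x y s t).2.2.2 := by
  have := pl_pos e
  simp only [row]; positivity

/-- The point of 3-space. -/
noncomputable def pt (e : Bool) (x y s t : ℝ) : EuclideanSpace ℝ (Fin 3) :=
  WithLp.toLp 2 ![(row e x y s t).1 / (row e x y s t).2.2.2,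
    (row e x y s t).2.1 / (row e x y s t).2.2.2,
    (row e x y s t).2.2.1 / (row e x y s t).2.2.2]

lemma dist_pt {x u x' v s t : ℝ} (hu : 0 < u) (hv : 0 < v) (ht : 0 < t)
    (h : 2 * ((x' - x) ^ 2 + u ^ 2 + v ^ 2) = 5 * (u * v)) :
    dist (pt true x u s t) (pt false x' v s t) = 1 := by
  have hc := unit_core (X0 := ((x - s) ^ 2 + u ^ 2 + t ^ 2) / (2 * t * u))
    (X1 := ((x - s) ^ 2 + u ^ 2 - t ^ 2) / (2 * t * u)) (X2 := (x - s) / u)
    (Y0 := ((x' - s) ^ 2 + v ^ 2 + t ^ 2) / (2 * t * v))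
    (Y1 := ((x' - s) ^ 2 + v ^ 2 - t ^ 2) / (2 * t * v)) (Y2 := (x' - s) / v)
    (by field_simp; ring) (by field_simp; ring)
    (by field_simp; linear_combination (-4 * t ^ 2) * h)
  have conv : ∀ (e : Bool) {x y : ℝ}, 0 < y →
      (row e x y s t).1 / (row e x y s t).2.2.2 =
        pa e * ((((x - s) ^ 2 + y ^ 2 - t ^ 2) / (2 * t * y)) ^ 2 - ((x - s) / y) ^ 2) /
          ((((x - s) ^ 2 + y ^ 2 + t ^ 2) / (2 * t * y)) ^ 2 + pl e) ∧
      (row e x y s t).2.1 / (row e x y s t).2.2.2 =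
        pa e * (2 * (((x - s) ^ 2 + y ^ 2 - t ^ 2) / (2 * t * y)) * ((x - s) / y)) /
          ((((x - s) ^ 2 + y ^ 2 + t ^ 2) / (2 * t * y)) ^ 2 + pl e) ∧
      (row e x y s t).2.2.1 / (row e x y s t).2.2.2 =
        2 * pb e * (((x - s) ^ 2 + y ^ 2 + t ^ 2) / (2 * t * y)) /
          ((((x - s) ^ 2 + y ^ 2 + t ^ 2) / (2 * t * y)) ^ 2 + pl e) := by
    intro e x y hy
    have h1 := row_last_pos e (x := x) (s := s) (t := t) hy
    have h2 := pl_pos e
    refine ⟨?_, ?_, ?_⟩ <;>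
    · rw [div_eq_div_iff h1.ne' (by positivity)]
      simp only [row]
      field_simp
      ring
  obtain ⟨a1, a2, a3⟩ := conv true (x := x) hu
  obtain ⟨b1, b2, b3⟩ := conv false (x := x') hv
  rw [EuclideanSpace.dist_eq, Real.sqrt_eq_one]
  simp only [pt, Fin.sum_univ_three, Real.dist_eq, sq_abs, Matrix.cons_val_zero,
    Matrix.cons_val_one, Matrix.cons_val]
  rw [a1, a2, a3, b1, b2, b3]
  exact hc

end Pool.Agent.MP_8b47e7_co.H99

end

-- part MP_8b47e7_co.H99.Generic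
section

/-! For a generic centre no four image points are coplanar. -/

set_option autoImplicit false

namespace Pool.Agent.MP_8b47e7_co.H99

open Filter Topology

/-- Index type: surface type and an integer point. -/
abbrev Ix := Bool × ℤ × ℤ

/-- The row of an index. -/
noncomputable def rowI (i : Ix) (s t : ℝ) : ℝ × ℝ × ℝ × ℝ := row i.1 i.2.1 i.2.2 s t

/-- Generic non-vanishing of the determinant. -/
def Good (i j k l : Ix) : Prop :=
  ∀ᶠ s in 𝓝[≠] (0 : ℝ), ∀ᶠ t in 𝓝[>] (0 : ℝ),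
    d4 (rowI i s t) (rowI j s t) (rowI k s t) (rowI l s t) ≠ 0

lemma Good.swap12 {i j k l : Ix} (h : Good i j k l) : Good j i k l := by
  filter_upwards [h] with s hs
  filter_upwards [hs] with t ht
  rw [d4_swap12]; exact neg_ne_zero.2 ht

lemma Good.swap23 {i j k l : Ix} (h : Good i j k l) : Good i k j l := by
  filter_upwards [h] with s hs
  filter_upwards [hs] with t ht
  rw [d4_swap23]; exact neg_ne_zero.2 ht

lemma Good.swap34 {i j k l : Ix} (h : Good i j k l) : Good i j l k := by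
  filter_upwards [h] with s hs
  filter_upwards [hs] with t ht
  rw [d4_swap34]; exact neg_ne_zero.2 ht

lemma eventually_of_factor (F G : ℝ → ℝ) (c : ℝ) (m : ℕ) (hc : c ≠ 0) (hG : Continuous G)
    (h0 : G 0 ≠ 0) (hF : ∀ t, F t = c * t ^ m * G t) : ∀ᶠ t in 𝓝[>] (0 : ℝ), F t ≠ 0 := by
  have h1 : ∀ᶠ t in 𝓝 (0 : ℝ), G t ≠ 0 := hG.continuousAt.eventually_ne h0
  filter_upwards [h1.filter_mono nhdsWithin_le_nhds, self_mem_nhdsWithin] with t ht ht0
  rw [hF]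
  exact mul_ne_zero (mul_ne_zero hc (pow_ne_zero _ (ne_of_gt ht0))) ht

/-- Leading row for mixed quadruples. -/
noncomputable def rowm (e : Bool) (x y s : ℝ) : ℝ × ℝ × ℝ × ℝ :=
  (pa e * ((x - s) ^ 2 + y ^ 2), pa e * (x - s), pb e * y, (x - s) ^ 2 + y ^ 2)

/-- Reduced row for mixed quadruples. -/
noncomputable def rowm' (e : Bool) (x y s t : ℝ) : ℝ × ℝ × ℝ × ℝ :=
  (pa e * (((x - s) ^ 2 + y ^ 2 - t ^ 2) ^ 2 - 4 * t ^ 2 * (x - s) ^ 2),
    pa e * (x - s) * ((x - s) ^ 2 + y ^ 2 - t ^ 2),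
    pb e * y * ((x - s) ^ 2 + y ^ 2 + t ^ 2),
    ((x - s) ^ 2 + y ^ 2 + t ^ 2) ^ 2 + 4 * pl e * t ^ 2 * y ^ 2)

lemma d4_scale23 (c : ℝ) (p q r s : ℝ × ℝ × ℝ × ℝ) :
    d4 (p.1, c * p.2.1, c * p.2.2.1, p.2.2.2) (q.1, c * q.2.1, c * q.2.2.1, q.2.2.2)
      (r.1, c * r.2.1, c * r.2.2.1, r.2.2.2) (s.1, c * s.2.1, c * s.2.2.1, s.2.2.2)
      = c ^ 2 * d4 p q r s := by
  simp only [d4, d3]; ring

lemma d4_smul (a b c d : ℝ) (p q r s : ℝ × ℝ × ℝ × ℝ) :
    d4 (a • p) (b • q) (c • r) (d • s) = a * b * c * d * d4 p q r s := by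
  simp only [d4, d3, Prod.smul_fst, Prod.smul_snd, smul_eq_mul]; ring

lemma d4_colop (a u v w : ℝ) (p q r s : ℝ × ℝ × ℝ × ℝ) :
    d4 (u * p.1 + a * p.2.2.2, v * p.2.1, w * p.2.2.1, p.2.2.2)
      (u * q.1 + a * q.2.2.2, v * q.2.1, w * q.2.2.1, q.2.2.2)
      (u * r.1 + a * r.2.2.2, v * r.2.1, w * r.2.2.1, r.2.2.2)
      (u * s.1 + a * s.2.2.2, v * s.2.1, w * s.2.2.1, s.2.2.2)
      = u * v * w * d4 p q r s := by
  simp only [d4, d3]; ring

lemma row_eq_rowm' (e : Bool) (x y s t : ℝ) : row e x y s t =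
    ((rowm' e x y s t).1, (4 * t) * (rowm' e x y s t).2.1, (4 * t) * (rowm' e x y s t).2.2.1,
      (rowm' e x y s t).2.2.2) := by
  simp only [row, rowm', Prod.mk.injEq, true_and, and_true]
  constructor <;> ring

lemma rowm'_zero (e : Bool) (x y s : ℝ) :
    rowm' e x y s 0 = ((x - s) ^ 2 + y ^ 2) • rowm e x y s := by
  simp only [rowm, rowm', Prod.smul_mk, smul_eq_mul, Prod.mk.injEq]
  refine ⟨by ring, by ring, by ring, by ring⟩

lemma good_of_mixed {i j k l : Ix} (hi : 0 < i.2.2) (hj : 0 < j.2.2) (hk : 0 < k.2.2)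
    (hl : 0 < l.2.2) (s0 : ℝ)
    (h : d4 (rowm i.1 i.2.1 i.2.2 s0) (rowm j.1 j.2.1 j.2.2 s0) (rowm k.1 k.2.1 k.2.2 s0)
      (rowm l.1 l.2.1 l.2.2 s0) ≠ 0) : Good i j k l := by
  have h1 := eventually_ne_of_analytic (𝕜 := ℝ)
    (fun s => d4 (rowm i.1 i.2.1 i.2.2 s) (rowm j.1 j.2.1 j.2.2 s) (rowm k.1 k.2.1 k.2.2 s)
      (rowm l.1 l.2.1 l.2.2 s)) (fun z => by simp only [d4, d3, rowm]; fun_prop) s0 h
  filter_upwards [h1] with s hs
  have pos : ∀ {x y : ℤ}, 0 < y → ((x : ℝ) - s) ^ 2 + (y : ℝ) ^ 2 ≠ 0 := by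
    intro x y hy
    have : (0 : ℝ) < y := by exact_mod_cast hy
    positivity
  refine eventually_of_factor _ (fun t => d4 (rowm' i.1 i.2.1 i.2.2 s t)
    (rowm' j.1 j.2.1 j.2.2 s t) (rowm' k.1 k.2.1 k.2.2 s t) (rowm' l.1 l.2.1 l.2.2 s t)) 16 2
    (by norm_num) (by simp only [d4, d3, rowm']; fun_prop) ?_ fun t => ?_
  · simp only [rowm'_zero, d4_smul]
    exact mul_ne_zero (mul_ne_zero (mul_ne_zero (mul_ne_zero (pos hi) (pos hj)) (pos hk))
      (pos hl)) hs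
  · simp only [rowI, row_eq_rowm']
    rw [d4_scale23]; ring

/-- Reduced row for four points on one surface. -/
noncomputable def rows' (e : Bool) (x y s t : ℝ) : ℝ × ℝ × ℝ × ℝ :=
  (((x - s) ^ 2 + y ^ 2) + (x - s) ^ 2 + pl e * y ^ 2,
    (x - s) * ((x - s) ^ 2 + y ^ 2 - t ^ 2),
    y * ((x - s) ^ 2 + y ^ 2 + t ^ 2),
    ((x - s) ^ 2 + y ^ 2 + t ^ 2) ^ 2 + 4 * pl e * t ^ 2 * y ^ 2)

lemma row_eq_rows' (e : Bool) (x y s t : ℝ) : row e x y s t =
    ((-4 * pa e * t ^ 2) * (rows' e x y s t).1 + pa e * (rows' e x y s t).2.2.2,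
      (4 * pa e * t) * (rows' e x y s t).2.1, (4 * pb e * t) * (rows' e x y s t).2.2.1,
      (rows' e x y s t).2.2.2) := by
  simp only [row, rows', Prod.mk.injEq, and_true]
  refine ⟨by ring, by ring, by ring⟩

lemma rows'_zero (e : Bool) (x y s : ℝ) : rows' e x y s 0 = rowc (pl e) x y s := by
  simp only [rowc, rows', Prod.mk.injEq, true_and]
  refine ⟨by ring, by ring, by ring⟩

lemma cast_ne {p q : ℤ × ℤ} (h : p ≠ q) : ((p.1 : ℝ), (p.2 : ℝ)) ≠ ((q.1 : ℝ), (q.2 : ℝ)) := by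
  intro hc
  simp only [Prod.mk.injEq, Int.cast_inj] at hc
  exact h (Prod.ext hc.1 hc.2)

lemma good_same (e : Bool) {p q r w : ℤ × ℤ} (hp : 0 < p.2) (hq : 0 < q.2) (hr : 0 < r.2)
    (hw : 0 < w.2) (h12 : p ≠ q) (h13 : p ≠ r) (h14 : p ≠ w) (h23 : q ≠ r) (h24 : q ≠ w)
    (h34 : r ≠ w) : Good (e, p) (e, q) (e, r) (e, w) := by
  obtain ⟨s0, h0⟩ := exists_rowc_ne (pl_ne e) (x1 := p.1) (y1 := p.2) (x2 := q.1) (y2 := q.2)
    (x3 := r.1) (y3 := r.2) (x4 := w.1) (y4 := w.2) (by exact_mod_cast hp) (by exact_mod_cast hq)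
    (by exact_mod_cast hr) (by exact_mod_cast hw) (cast_ne h12) (cast_ne h13) (cast_ne h14)
    (cast_ne h23) (cast_ne h24) (cast_ne h34)
  have h1 := eventually_ne_real_of_complex
    (fun s => d4 (rowc (pl e : ℂ) (p.1 : ℝ) (p.2 : ℝ) s) (rowc (pl e : ℂ) (q.1 : ℝ) (q.2 : ℝ) s)
      (rowc (pl e : ℂ) (r.1 : ℝ) (r.2 : ℝ) s) (rowc (pl e : ℂ) (w.1 : ℝ) (w.2 : ℝ) s))
      (fun z => by simp only [d4, d3, rowc]; fun_prop) s0 h0
  filter_upwards [h1] with s hs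
  have hs' : d4 (rowc (pl e) (p.1 : ℝ) (p.2 : ℝ) s) (rowc (pl e) (q.1 : ℝ) (q.2 : ℝ) s)
      (rowc (pl e) (r.1 : ℝ) (r.2 : ℝ) s) (rowc (pl e) (w.1 : ℝ) (w.2 : ℝ) s) ≠ 0 := by
    intro hc
    apply hs
    have := congrArg (fun x : ℝ => (x : ℂ)) hc
    simp only [d4, d3, rowc] at this ⊢
    push_cast at this ⊢
    exact this
  refine eventually_of_factor _ (fun t => d4 (rows' e p.1 p.2 s t)
    (rows' e q.1 q.2 s t) (rows' e r.1 r.2 s t) (rows' e w.1 w.2 s t))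
    (-64 * pa e ^ 2 * pb e) 4 ?_ (by simp only [d4, d3, rows']; fun_prop) ?_ fun t => ?_
  · have := pa_pos e
    have := pb_pos e
    have : 0 < pa e ^ 2 * pb e := by positivity
    linarith
  · simpa only [rows'_zero] using hs'
  · simp only [rowI, row_eq_rows']
    rw [d4_colop]; ring

lemma good_three (e f : Bool) (hef : e ≠ f) {p q r w : ℤ × ℤ} (hp : 0 < p.2) (hq : 0 < q.2)
    (hr : 0 < r.2) (hw : 0 < w.2) (h12 : p ≠ q) (h13 : p ≠ r) (h23 : q ≠ r) :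
    Good (e, p) (e, q) (e, r) (f, w) := by
  obtain ⟨s0, h0⟩ := exists_d3_ne (x1 := p.1) (y1 := p.2) (x2 := q.1) (y2 := q.2)
    (x3 := r.1) (y3 := r.2) (by exact_mod_cast hp) (cast_ne h12) (cast_ne h13) (cast_ne h23)
  refine good_of_mixed hp hq hr hw s0 ?_
  have key : d4 (rowm e p.1 p.2 s0) (rowm e q.1 q.2 s0) (rowm e r.1 r.2 s0) (rowm f w.1 w.2 s0)
      = (pa e - pa f) * (pa e * pb e) * (((w.1 : ℝ) - s0) ^ 2 + (w.2 : ℝ) ^ 2) *
        d3 (((p.1 : ℝ) - s0) ^ 2 + (p.2 : ℝ) ^ 2) (p.1 - s0) p.2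
          (((q.1 : ℝ) - s0) ^ 2 + (q.2 : ℝ) ^ 2) (q.1 - s0) q.2
          (((r.1 : ℝ) - s0) ^ 2 + (r.2 : ℝ) ^ 2) (r.1 - s0) r.2 := by
    simp only [rowm]
    generalize ((p.1 : ℝ) - s0) ^ 2 + (p.2 : ℝ) ^ 2 = n1
    generalize ((q.1 : ℝ) - s0) ^ 2 + (q.2 : ℝ) ^ 2 = n2
    generalize ((r.1 : ℝ) - s0) ^ 2 + (r.2 : ℝ) ^ 2 = n3
    generalize ((w.1 : ℝ) - s0) ^ 2 + (w.2 : ℝ) ^ 2 = n4
    simp only [d4, d3]; ring
  simp only
  rw [key]
  have ha : pa e - pa f ≠ 0 := by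
    cases e <;> cases f <;> simp [pa] at hef ⊢
  have hw' : (0 : ℝ) < w.2 := by exact_mod_cast hw
  have := pa_pos e
  have := pb_pos e
  exact mul_ne_zero (mul_ne_zero (mul_ne_zero ha (by positivity)) (by positivity)) h0

lemma exists_int_quadratics (a b c a' b' c' : ℤ) (h : ¬ (a = 0 ∧ b = 0 ∧ c = 0))
    (h' : ¬ (a' = 0 ∧ b' = 0 ∧ c' = 0)) :
    ∃ s : ℤ, (a * s ^ 2 + b * s + c) * (a' * s ^ 2 + b' * s + c') ≠ 0 := by
  by_contra hc
  push Not at hc
  have key : ∀ a b c : ℤ, (Polynomial.C a * Polynomial.X ^ 2 + Polynomial.C b * Polynomial.X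
      + Polynomial.C c : Polynomial ℤ) = 0 → a = 0 ∧ b = 0 ∧ c = 0 := by
    intro a b c h
    have h0 := congrArg (Polynomial.eval 0) h
    have h1 := congrArg (Polynomial.eval 1) h
    have h2 := congrArg (Polynomial.eval (-1)) h
    simp at h0 h1 h2
    omega
  have hz : ((Polynomial.C a * Polynomial.X ^ 2 + Polynomial.C b * Polynomial.X
      + Polynomial.C c) * (Polynomial.C a' * Polynomial.X ^ 2 + Polynomial.C b' * Polynomial.X
      + Polynomial.C c') : Polynomial ℤ) = 0 := by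
    apply Polynomial.funext
    intro s
    simpa using hc s
  rcases mul_eq_zero.1 hz with h1 | h1
  · exact h (key _ _ _ h1)
  · exact h' (key _ _ _ h1)

lemma good_two {p q r w : ℤ × ℤ} (hp : 0 < p.2) (hq : 0 < q.2)
    (hr : 0 < r.2) (hw : 0 < w.2) (h12 : p ≠ q) (h34 : r ≠ w) :
    Good (true, p) (true, q) (false, r) (false, w) := by
  obtain ⟨x1, y1⟩ := p
  obtain ⟨x2, y2⟩ := q
  obtain ⟨x3, y3⟩ := r
  obtain ⟨x4, y4⟩ := w
  simp only at hp hq hr hw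
  obtain ⟨s, hs⟩ := exists_int_quadratics (x1 - x2) ((x2 ^ 2 + y2 ^ 2) - (x1 ^ 2 + y1 ^ 2))
    ((x1 ^ 2 + y1 ^ 2) * x2 - (x2 ^ 2 + y2 ^ 2) * x1) (y4 - y3) (2 * (x4 * y3 - x3 * y4))
    ((x3 ^ 2 + y3 ^ 2) * y4 - (x4 ^ 2 + y4 ^ 2) * y3)
    (by
      rintro ⟨a, b, -⟩
      have hx : x1 = x2 := by omega
      subst hx
      have : (y1 - y2) * (y1 + y2) = 0 := by linear_combination -b
      have hy : y1 = y2 := by
        rcases mul_eq_zero.1 this with h | h <;> omega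
      exact h12 (by rw [hy]))
    (by
      rintro ⟨a, b, -⟩
      have hy : y3 = y4 := by omega
      subst hy
      have : (x4 - x3) * y3 = 0 := by linarith
      have hx : x3 = x4 := by
        rcases mul_eq_zero.1 this with h | h <;> omega
      exact h34 (by rw [hx]))
  refine good_of_mixed hp hq hr hw (s : ℝ) ?_
  set A : ℤ := (((x1 - s) ^ 2 + y1 ^ 2) * (x2 - s) - ((x2 - s) ^ 2 + y2 ^ 2) * (x1 - s)) *
    (((x3 - s) ^ 2 + y3 ^ 2) * y4 - ((x4 - s) ^ 2 + y4 ^ 2) * y3) with hA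
  set B : ℤ := (((x1 - s) ^ 2 + y1 ^ 2) * y2 - ((x2 - s) ^ 2 + y2 ^ 2) * y1) *
    (((x3 - s) ^ 2 + y3 ^ 2) * (x4 - s) - ((x4 - s) ^ 2 + y4 ^ 2) * (x3 - s)) with hB
  have hA0 : A ≠ 0 := by
    intro h; apply hs; rw [← h, hA]; ring
  have key : d4 (rowm true x1 y1 s) (rowm true x2 y2 s) (rowm false x3 y3 s) (rowm false x4 y4 s)
      = - (pb true * pa false * B - pa true * pb false * A) := by
    rw [hA, hB]
    push_cast
    simp only [rowm]
    generalize ((x1 : ℝ) - s) ^ 2 + (y1 : ℝ) ^ 2 = n1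
    generalize ((x2 : ℝ) - s) ^ 2 + (y2 : ℝ) ^ 2 = n2
    generalize ((x3 : ℝ) - s) ^ 2 + (y3 : ℝ) ^ 2 = n3
    generalize ((x4 : ℝ) - s) ^ 2 + (y4 : ℝ) ^ 2 = n4
    simp only [d4, d3, pa]; ring
  simp only
  rw [key, neg_ne_zero]
  intro hc
  have hb1 : pb true ^ 2 = 25 * (50 - 9 * rr) / 144 := bb_sq
  have hb12 := pb_mul
  have hr := rr_eq
  simp only [pa] at hc
  have h1 : rr * ((41 * B - 40 * A : ℤ) : ℝ) = ((50 * B - 40 * A : ℤ) : ℝ) := by
    push_cast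
    linear_combination (144 / 25) * pb true * hc - (144 / 25) * rr * B * hb1
      + (144 / 25) * (rr - 1) * A * hb12 + B * hr
  have h2 := rr_irr _ _ h1
  rw [h2] at h1
  have h3 : 50 * B - 40 * A = 0 := by
    have : ((50 * B - 40 * A : ℤ) : ℝ) = 0 := by rw [← h1]; simp
    exact_mod_cast this
  omega

theorem good_all {i j k l : Ix} (hi : 0 < i.2.2) (hj : 0 < j.2.2) (hk : 0 < k.2.2)
    (hl : 0 < l.2.2) (h12 : i ≠ j) (h13 : i ≠ k) (h14 : i ≠ l) (h23 : j ≠ k) (h24 : j ≠ l)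
    (h34 : k ≠ l) : Good i j k l := by
  obtain ⟨a, p⟩ := i
  obtain ⟨b, q⟩ := j
  obtain ⟨c, r⟩ := k
  obtain ⟨d, w⟩ := l
  simp only at hi hj hk hl
  have ne : ∀ {e : Bool} {u v : ℤ × ℤ}, ((e, u) : Ix) ≠ (e, v) → u ≠ v :=
    fun h h' => h (by rw [h'])
  have t : true ≠ false := by decide
  cases a <;> cases b <;> cases c <;> cases d
  · exact good_same _ hi hj hk hl (ne h12) (ne h13) (ne h14) (ne h23) (ne h24) (ne h34)
  · exact good_three _ _ t.symm hi hj hk hl (ne h12) (ne h13) (ne h23)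
  · exact (good_three _ _ t.symm hi hj hl hk (ne h12) (ne h14) (ne h24)).swap34
  · exact (good_two hk hl hi hj (ne h34) (ne h12)).swap23.swap12.swap34.swap23
  · exact (good_three _ _ t.symm hi hk hl hj (ne h13) (ne h14) (ne h34)).swap34.swap23
  · exact (good_two hj hl hi hk (ne h24) (ne h13)).swap23.swap12.swap34
  · exact (good_two hj hk hi hl (ne h23) (ne h14)).swap23.swap12
  · exact (good_three _ _ t hj hk hl hi (ne h23) (ne h24) (ne h34)).swap34.swap23.swap12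
  · exact (good_three _ _ t.symm hj hk hl hi (ne h23) (ne h24) (ne h34)).swap34.swap23.swap12
  · exact (good_two hi hl hj hk (ne h14) (ne h23)).swap23.swap34
  · exact (good_two hi hk hj hl (ne h13) (ne h24)).swap23
  · exact (good_three _ _ t hi hk hl hj (ne h13) (ne h14) (ne h34)).swap34.swap23
  · exact good_two hi hj hk hl (ne h12) (ne h34)
  · exact (good_three _ _ t hi hj hl hk (ne h12) (ne h14) (ne h24)).swap34
  · exact good_three _ _ t hi hj hk hl (ne h12) (ne h13) (ne h23)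
  · exact good_same _ hi hj hk hl (ne h12) (ne h13) (ne h14) (ne h23) (ne h24) (ne h34)

end Pool.Agent.MP_8b47e7_co.H99

end

-- part MP_8b47e7_co.H99.Divisors
section

/-! Divisor-count lemmas: a divisor box is almost invariant under multiplication by smooth ratios. -/

set_option autoImplicit false

namespace Pool.Agent.MP_8b47e7_co.H99

open Finset

lemma one_sub_sum_le_prod {ι : Type*} (s : Finset ι) (f : ι → ℝ) (h0 : ∀ i ∈ s, 0 ≤ f i)
    (h1 : ∀ i ∈ s, f i ≤ 1) : 1 - ∑ i ∈ s, f i ≤ ∏ i ∈ s, (1 - f i) := by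
  classical
  induction s using Finset.induction_on with
  | empty => simp
  | insert a s ha ih =>
    rw [sum_insert ha, prod_insert ha]
    have ih' := ih (fun i hi => h0 i (mem_insert_of_mem hi)) (fun i hi => h1 i (mem_insert_of_mem hi))
    have ha0 := h0 a (mem_insert_self _ _)
    have ha1 := h1 a (mem_insert_self _ _)
    have hs : 0 ≤ ∑ i ∈ s, f i := sum_nonneg fun i hi => h0 i (mem_insert_of_mem hi)
    nlinarith [mul_le_mul_of_nonneg_left ih' (sub_nonneg.2 ha1), mul_nonneg ha0 hs]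

lemma card_divisors_div (T W : ℕ) (hT : T ≠ 0) (hW : W ∣ T) :
    (#T.divisors : ℝ) * (1 - ∑ p ∈ T.primeFactors,
      (W.factorization p : ℝ) / ((T.factorization p : ℝ) + 1)) ≤ #(T / W).divisors := by
  have hW0 : W ≠ 0 := fun h => hT (by simpa [h] using hW)
  have hTW : T / W ≠ 0 := (Nat.div_pos (Nat.le_of_dvd (Nat.pos_of_ne_zero hT) hW)
    (Nat.pos_of_ne_zero hW0)).ne'
  have hle : ∀ p, W.factorization p ≤ T.factorization p :=
    (Nat.factorization_le_iff_dvd hW0 hT).2 hW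
  have hsub : (T / W).primeFactors ⊆ T.primeFactors :=
    Nat.primeFactors_mono (Nat.div_dvd_of_dvd hW) hT
  have h2 : #(T / W).divisors = ∏ p ∈ T.primeFactors, ((T / W).factorization p + 1) := by
    rw [Nat.card_divisors hTW]
    refine prod_subset hsub fun p _ hp => ?_
    have : (T / W).factorization p = 0 := by
      rw [← Finsupp.notMem_support_iff]; simpa using hp
    simp [this]
  rw [h2, Nat.card_divisors hT]
  push_cast
  have h3 := one_sub_sum_le_prod T.primeFactors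
    (fun p => (W.factorization p : ℝ) / ((T.factorization p : ℝ) + 1))
    (fun p _ => by positivity)
    (fun p _ => by
      rw [div_le_one (by positivity)]
      have : (W.factorization p : ℝ) ≤ T.factorization p := by exact_mod_cast hle p
      linarith)
  refine (mul_le_mul_of_nonneg_left h3 (prod_nonneg fun p _ => by positivity)).trans (le_of_eq ?_)
  rw [← prod_mul_distrib]
  refine prod_congr rfl fun p _ => ?_
  rw [Nat.factorization_div hW, Finsupp.tsub_apply, Nat.cast_sub (hle p)]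
  field_simp
  ring

lemma pow_sum_factorization_le (W z : ℕ) (hW : W ≠ 0) (_hz : 1 ≤ z) (S : Finset ℕ)
    (hS : ∀ p ∈ S, z ≤ p) : z ^ (∑ p ∈ S, W.factorization p) ≤ W := by
  classical
  rw [← prod_pow_eq_pow_sum]
  have h1 : ∏ p ∈ S, z ^ W.factorization p ≤ ∏ p ∈ S, p ^ W.factorization p :=
    prod_le_prod' fun p hp => Nat.pow_le_pow_left (hS p hp) _
  refine h1.trans ?_
  have h2 : ∏ p ∈ S, p ^ W.factorization p = ∏ p ∈ S ∩ W.primeFactors, p ^ W.factorization p := by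
    symm
    refine prod_subset inter_subset_left fun p hp hp' => ?_
    have : W.factorization p = 0 := by
      rw [← Finsupp.notMem_support_iff]
      simp only [mem_inter, not_and] at hp'
      simpa using hp' hp
    simp [this]
  rw [h2]
  have h3 : ∏ p ∈ W.primeFactors, p ^ W.factorization p = W := Nat.prod_factorization_pow_eq_self hW
  refine le_trans ?_ h3.le
  refine prod_le_prod_of_subset_of_one_le' inter_subset_right fun p hp _ => ?_
  exact Nat.one_le_pow _ _ (Nat.prime_of_mem_primeFactors hp).pos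

/-- The box number. -/
def boxT (y z L : ℕ) : ℕ := primorial y ^ 12 * primorial z ^ (4 * L)

lemma boxT_ne_zero (y z L : ℕ) : boxT y z L ≠ 0 :=
  mul_ne_zero (pow_ne_zero _ (primorial_ne_zero _)) (pow_ne_zero _ (primorial_ne_zero _))

lemma boxT_le (y z L : ℕ) : boxT y z L ≤ 4 ^ (12 * y + 4 * L * z) := by
  unfold boxT
  calc primorial y ^ 12 * primorial z ^ (4 * L) ≤ (4 ^ y) ^ 12 * (4 ^ z) ^ (4 * L) :=
        Nat.mul_le_mul (Nat.pow_le_pow_left (primorial_le_four_pow _) _)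
          (Nat.pow_le_pow_left (primorial_le_four_pow _) _)
    _ = 4 ^ (12 * y + 4 * L * z) := by rw [← pow_mul, ← pow_mul, ← pow_add]; congr 1; ring

lemma boxT_fact (y z L p : ℕ) : (boxT y z L).factorization p =
    12 * (primorial y).factorization p + 4 * L * (primorial z).factorization p := by
  unfold boxT
  rw [Nat.factorization_mul (pow_ne_zero _ (primorial_ne_zero _))
    (pow_ne_zero _ (primorial_ne_zero _))]
  simp [Nat.factorization_pow]

lemma one_le_fact_primorial {p n : ℕ} (hp : p.Prime) (h : p ≤ n) :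
    1 ≤ (primorial n).factorization p :=
  (hp.dvd_iff_one_le_factorization (primorial_ne_zero _)).1 (hp.dvd_primorial_iff.2 h)

/-- A `y`-smooth number `W < 2^L`, `W < z^4` divides the box number and keeps half the divisors. -/
lemma smooth_box (y z L W : ℕ) (hW : W ≠ 0) (hz : 1 ≤ z) (hL : 1 ≤ L) (h2 : W < 2 ^ L)
    (h4 : W < z ^ 4)
    (hs : ∀ p, p.Prime → p ∣ W → p ≤ y) :
    W ∣ boxT y z L ∧ (#(boxT y z L).divisors : ℝ) ≤ 2 * #(boxT y z L / W).divisors := by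
  classical
  have hsmall : ∀ S : Finset ℕ, (∀ p ∈ S, p.Prime) → ∑ p ∈ S, W.factorization p ≤ L := by
    intro S hS
    have := pow_sum_factorization_le W 2 hW (by norm_num) S fun p hp => (hS p hp).two_le
    exact ((Nat.pow_lt_pow_iff_right (by norm_num : 1 < 2)).1 (this.trans_lt h2)).le
  have hbig : ∀ S : Finset ℕ, (∀ p ∈ S, z ≤ p) → ∑ p ∈ S, W.factorization p ≤ 3 := by
    intro S hS
    have := pow_sum_factorization_le W z hW hz S hS
    by_contra hc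
    push Not at hc
    have : z ^ 4 ≤ z ^ (∑ p ∈ S, W.factorization p) := Nat.pow_le_pow_right hz hc
    omega
  have hT := boxT_ne_zero y z L
  have hdvd : W ∣ boxT y z L := by
    rw [← Nat.factorization_prime_le_iff_dvd hW hT]
    intro p hp
    rw [boxT_fact]
    by_cases hpW : p ∣ W
    · by_cases hpz : p ≤ z
      · have h1 := hsmall {p} (by simpa using hp)
        have h3 := one_le_fact_primorial hp hpz
        rw [sum_singleton] at h1
        nlinarith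
      · have h1 := hbig {p} (by simp; omega)
        have h3 := one_le_fact_primorial hp (hs p hp hpW)
        rw [sum_singleton] at h1
        omega
    · simp [Nat.factorization_eq_zero_of_not_dvd hpW]
  refine ⟨hdvd, ?_⟩
  have key := card_divisors_div _ W hT hdvd
  set T := boxT y z L with hTdef
  have hsum : ∑ p ∈ T.primeFactors, (W.factorization p : ℝ) / ((T.factorization p : ℝ) + 1)
      ≤ 1 / 2 := by
    rw [← sum_filter_add_sum_filter_not T.primeFactors (fun p => p ≤ z)]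
    have hA : ∑ p ∈ T.primeFactors with p ≤ z,
        (W.factorization p : ℝ) / ((T.factorization p : ℝ) + 1) ≤ 1 / 4 := by
      have hL' : (0 : ℝ) < L := by exact_mod_cast hL
      calc _ ≤ ∑ p ∈ T.primeFactors with p ≤ z, (W.factorization p : ℝ) / (4 * L) := by
            refine sum_le_sum fun p hp => ?_
            rw [mem_filter] at hp
            have h3 := one_le_fact_primorial (Nat.prime_of_mem_primeFactors hp.1) hp.2
            have h5 : 4 * L ≤ T.factorization p := by rw [hTdef, boxT_fact]; nlinarith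
            have h6 : (4 * L : ℝ) ≤ T.factorization p := by exact_mod_cast h5
            exact div_le_div_of_nonneg_left (by positivity) (by positivity) (by linarith)
        _ = ((∑ p ∈ T.primeFactors with p ≤ z, W.factorization p : ℕ) : ℝ) / (4 * L) := by
            rw [← sum_div]; push_cast; rfl
        _ ≤ 1 / 4 := by
            have := hsmall (T.primeFactors.filter (fun p => p ≤ z))
              (fun p hp => Nat.prime_of_mem_primeFactors (mem_filter.1 hp).1)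
            have h7 : ((∑ p ∈ T.primeFactors with p ≤ z, W.factorization p : ℕ) : ℝ) ≤ L := by
              exact_mod_cast this
            rw [div_le_iff₀ (by positivity)]
            linarith
    have hB : ∑ p ∈ T.primeFactors with ¬ p ≤ z,
        (W.factorization p : ℝ) / ((T.factorization p : ℝ) + 1) ≤ 1 / 4 := by
      calc _ ≤ ∑ p ∈ T.primeFactors with ¬ p ≤ z, (W.factorization p : ℝ) / 12 := by
            refine sum_le_sum fun p hp => ?_
            rw [mem_filter] at hp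
            have hpp := Nat.prime_of_mem_primeFactors hp.1
            by_cases hpW : p ∣ W
            · have h3 := one_le_fact_primorial hpp (hs p hpp hpW)
              have h5 : 12 ≤ T.factorization p := by rw [hTdef, boxT_fact]; omega
              have h6 : (12 : ℝ) ≤ T.factorization p := by exact_mod_cast h5
              exact div_le_div_of_nonneg_left (by positivity) (by positivity) (by linarith)
            · simp [Nat.factorization_eq_zero_of_not_dvd hpW]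
        _ = ((∑ p ∈ T.primeFactors with ¬ p ≤ z, W.factorization p : ℕ) : ℝ) / 12 := by
            rw [← sum_div]; push_cast; rfl
        _ ≤ 1 / 4 := by
            have := hbig (T.primeFactors.filter (fun p => ¬ p ≤ z))
              (fun p hp => by have := (mem_filter.1 hp).2; omega)
            have h7 : ((∑ p ∈ T.primeFactors with ¬ p ≤ z, W.factorization p : ℕ) : ℝ) ≤ 3 := by
              exact_mod_cast this
            linarith
    linarith
  have h0 : (0 : ℝ) ≤ #T.divisors := by positivity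
  nlinarith

end Pool.Agent.MP_8b47e7_co.H99

end

-- part MP_8b47e7_co.H99.Pairs
section

/-! Many coprime pairs `(a,b)` have both `2(a^2+b^2)` and `a^2+4b^2` free of large primes. -/

set_option autoImplicit false

namespace Pool.Agent.MP_8b47e7_co.H99

open Finset

lemma card_not_coprime (B : ℕ) :
    (#{x ∈ Ioc 0 B ×ˢ Ioc 0 B | ¬ Nat.Coprime x.1 x.2} : ℝ) ≤ 3 / 4 * (B : ℝ) ^ 2 := by
  classical
  have hsub : {x ∈ Ioc 0 B ×ˢ Ioc 0 B | ¬ Nat.Coprime x.1 x.2} ⊆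
      (Ioc 1 B).biUnion fun q => {a ∈ Ioc 0 B | q ∣ a} ×ˢ {a ∈ Ioc 0 B | q ∣ a} := by
    intro x hx
    simp only [mem_filter, mem_product, mem_Ioc, mem_biUnion] at hx ⊢
    obtain ⟨⟨h1, h2⟩, h3⟩ := hx
    refine ⟨Nat.gcd x.1 x.2, ⟨?_, ?_⟩, ⟨h1, Nat.gcd_dvd_left _ _⟩, ⟨h2, Nat.gcd_dvd_right _ _⟩⟩
    · have : 0 < Nat.gcd x.1 x.2 := Nat.gcd_pos_of_pos_left _ h1.1
      unfold Nat.Coprime at h3
      omega
    · exact (Nat.gcd_le_left _ h1.1).trans h1.2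
  have h1 := (card_le_card hsub).trans card_biUnion_le
  have h2 : ((∑ q ∈ Ioc 1 B, #({a ∈ Ioc 0 B | q ∣ a} ×ˢ {a ∈ Ioc 0 B | q ∣ a}) : ℕ) : ℝ)
      ≤ ∑ q ∈ Ioc 1 B, (B : ℝ) ^ 2 * ((q : ℝ) ^ 2)⁻¹ := by
    push_cast
    refine sum_le_sum fun q hq => ?_
    rw [card_product, Nat.Ioc_filter_dvd_card_eq_div]
    have hq0 : (0 : ℝ) < q := by
      have := (mem_Ioc.1 hq).1
      exact_mod_cast (by omega : 0 < q)
    have : ((B / q : ℕ) : ℝ) ≤ B / q := Nat.cast_div_le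
    push_cast
    calc ((B / q : ℕ) : ℝ) * ((B / q : ℕ) : ℝ) ≤ (B / q) * (B / q) :=
          mul_le_mul this this (by positivity) (by positivity)
      _ = _ := by field_simp
  have h3 : ∑ q ∈ Ioc 1 B, ((q : ℝ) ^ 2)⁻¹ ≤ 3 / 4 := by
    rcases lt_or_ge B 2 with hB | hB
    · have : Ioc 1 B = ∅ := by
        apply Ioc_eq_empty; omega
      rw [this]; simp; norm_num
    · have h4 := sum_Ioc_inv_sq_le_sub (α := ℝ) (k := 2) (n := B) (by norm_num) hB
      have h5 : Ioc 1 B = insert 2 (Ioc 2 B) := by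
        ext q; simp only [mem_Ioc, mem_insert]; omega
      rw [h5, sum_insert (by simp)]
      have : (0 : ℝ) ≤ (B : ℝ)⁻¹ := by positivity
      push_cast at h4 ⊢
      linarith
  rw [← mul_sum] at h2
  have h6 : ((#{x ∈ Ioc 0 B ×ˢ Ioc 0 B | ¬ Nat.Coprime x.1 x.2} : ℕ) : ℝ) ≤
      ((∑ q ∈ Ioc 1 B, #({a ∈ Ioc 0 B | q ∣ a} ×ˢ {a ∈ Ioc 0 B | q ∣ a}) : ℕ) : ℝ) := by
    exact_mod_cast h1
  have h7 : (0 : ℝ) ≤ (B : ℝ) ^ 2 := by positivity
  nlinarith

lemma card_dvd_sq_add_sq (K n p : ℕ) (hK : 2 ≤ K) (hn : 2 ≤ n) (hp : p.Prime)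
    (hpy : K * n ^ 2 < p) :
    #{x ∈ Ioc 0 (2 * (K * n)) ×ˢ Ioc 0 (2 * (K * n)) | p ∣ x.1 ^ 2 + x.2 ^ 2}
      ≤ 2 * (2 * K + 1) ^ 2 := by
  classical
  have := Fact.mk hp
  let R : Finset (ZMod p) := {i | i ^ 2 = -1}
  have hR : #R ≤ 2 := by
    rcases R.eq_empty_or_nonempty with h | ⟨i, hi⟩
    · simp [h]
    · have : R ⊆ {i, -i} := by
        intro j hj
        simp only [R, mem_filter, mem_univ, true_and] at hi hj
        have : j ^ 2 = i ^ 2 := hj.trans hi.symm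
        simpa using sq_eq_sq_iff_eq_or_eq_neg.1 this
      exact (card_le_card this).trans card_le_two
  have hcne : ∀ c : ℕ, 0 < c → c ≤ 2 * (K * n) → (c : ZMod p) ≠ 0 := by
    intro c h0 h1 h
    rw [ZMod.natCast_eq_zero_iff] at h
    have := Nat.le_of_dvd h0 h
    nlinarith
  let f : ℕ × ℕ → ZMod p × ℕ × ℕ := fun x => ((x.1 : ZMod p) / (x.2 : ZMod p), x.1 / n, x.2 / n)
  have hmaps : Set.MapsTo f
      ({x ∈ Ioc 0 (2 * (K * n)) ×ˢ Ioc 0 (2 * (K * n)) | p ∣ x.1 ^ 2 + x.2 ^ 2} : Finset _)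
      (R ×ˢ range (2 * K + 1) ×ˢ range (2 * K + 1) : Finset _) := by
    intro x hx
    simp only [coe_filter, mem_product, mem_Ioc, Set.mem_ofPred_eq] at hx
    obtain ⟨⟨h1, h2⟩, h3⟩ := hx
    have h4 : (x.1 : ZMod p) ^ 2 + (x.2 : ZMod p) ^ 2 = 0 := by
      have := (ZMod.natCast_eq_zero_iff _ _).2 h3
      push_cast at this
      exact this
    have hc := hcne x.2 h2.1 h2.2
    simp only [coe_product, Set.mem_prod, mem_coe, mem_range, R, mem_filter, mem_univ, true_and, f]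
    refine ⟨?_, ?_, ?_⟩
    · field_simp
      linear_combination h4
    · rw [Nat.div_lt_iff_lt_mul (by omega)]; nlinarith [h1.2]
    · rw [Nat.div_lt_iff_lt_mul (by omega)]; nlinarith [h2.2]
  have hinj : Set.InjOn f
      ({x ∈ Ioc 0 (2 * (K * n)) ×ˢ Ioc 0 (2 * (K * n)) | p ∣ x.1 ^ 2 + x.2 ^ 2} : Finset _) := by
    intro x hx x' hx' h
    have hm := hmaps hx
    simp only [coe_filter, mem_product, mem_Ioc, Set.mem_ofPred_eq] at hx hx'
    simp only [coe_product, Set.mem_prod, mem_coe, mem_range, R, mem_filter, mem_univ, true_and,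
      f] at hm
    simp only [f, Prod.mk.injEq] at h
    obtain ⟨e1, e2, e3⟩ := h
    have hc := hcne x.2 hx.1.2.1 hx.1.2.2
    have hc' := hcne x'.2 hx'.1.2.1 hx'.1.2.2
    set i := (x.1 : ZMod p) / (x.2 : ZMod p) with hi
    have ha : (x.1 : ZMod p) = i * x.2 := by rw [hi]; field_simp
    have ha' : (x'.1 : ZMod p) = i * x'.2 := by rw [e1]; field_simp
    have hz : ((((x.1 : ℤ) - x'.1) ^ 2 + ((x.2 : ℤ) - x'.2) ^ 2 : ℤ) : ZMod p) = 0 := by
      push_cast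
      rw [ha, ha']
      linear_combination ((x.2 : ZMod p) - x'.2) ^ 2 * hm.1
    rw [ZMod.intCast_zmod_eq_zero_iff_dvd] at hz
    have hclose : ∀ a b : ℕ, a / n = b / n → ((a : ℤ) - b) ^ 2 < (n : ℤ) ^ 2 := by
      intro a b hab
      have h1 := Nat.div_add_mod a n
      have h2 := Nat.div_add_mod b n
      have h3 := Nat.mod_lt a (by omega : n > 0)
      have h4 := Nat.mod_lt b (by omega : n > 0)
      rw [hab] at h1
      apply sq_lt_sq'
      · zify at h1 h2 h3 h4; have := Int.emod_nonneg (a : ℤ) (by omega : (n : ℤ) ≠ 0); linarith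
      · zify at h1 h2 h3 h4; have := Int.emod_nonneg (b : ℤ) (by omega : (n : ℤ) ≠ 0); linarith
    have k1 := hclose _ _ e2
    have k2 := hclose _ _ e3
    have hpy' : (K : ℤ) * (n : ℤ) ^ 2 < p := by exact_mod_cast hpy
    have hK' : (2 : ℤ) ≤ K := by exact_mod_cast hK
    have hzero : ((x.1 : ℤ) - x'.1) ^ 2 + ((x.2 : ℤ) - x'.2) ^ 2 = 0 := by
      by_contra hne
      have := Int.le_of_dvd (lt_of_le_of_ne (by positivity) (Ne.symm hne)) hz
      nlinarith [sq_nonneg (n : ℤ)]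
    have q1 : ((x.1 : ℤ) - x'.1) = 0 := by nlinarith [sq_nonneg ((x.1 : ℤ) - x'.1), sq_nonneg ((x.2 : ℤ) - x'.2)]
    have q2 : ((x.2 : ℤ) - x'.2) = 0 := by nlinarith [sq_nonneg ((x.1 : ℤ) - x'.1), sq_nonneg ((x.2 : ℤ) - x'.2)]
    ext <;> omega
  have := card_le_card_of_injOn f hmaps hinj
  simp only [card_product, card_range] at this
  nlinarith

lemma card_primes_between (y X M : ℕ) (hy : 4 ^ M ≤ y) :
    M * #{p ∈ Ioc y X | p.Prime} ≤ X := by
  classical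
  have h1 : ∏ p ∈ Ioc y X with p.Prime, p ≤ primorial X := by
    unfold primorial
    refine prod_le_prod_of_subset_of_one_le' ?_ fun p hp _ => (mem_filter.1 hp).2.pos
    intro p hp
    simp only [mem_filter, mem_Ioc, mem_range] at hp ⊢
    exact ⟨by omega, hp.2⟩
  have h2 : (4 ^ M) ^ #{p ∈ Ioc y X | p.Prime} ≤ ∏ p ∈ Ioc y X with p.Prime, p := by
    apply pow_card_le_prod
    intro p hp
    simp only [mem_filter, mem_Ioc] at hp
    omega
  have h3 := (h2.trans h1).trans (primorial_le_four_pow X)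
  rw [← pow_mul] at h3
  exact (Nat.pow_le_pow_iff_right (by norm_num)).1 h3

/-- The good pairs. -/
noncomputable def goodPairs (K n : ℕ) : Finset (ℕ × ℕ) := by
  classical
  exact {x ∈ Ioc 0 (K * n) ×ˢ Ioc 0 (K * n) | Nat.Coprime x.1 x.2 ∧
    ∀ p, p.Prime → p ∣ (2 * (x.1 ^ 2 + x.2 ^ 2)) * (x.1 ^ 2 + 4 * x.2 ^ 2) → p ≤ K * n ^ 2}

lemma mem_goodPairs {K n : ℕ} {x : ℕ × ℕ} : x ∈ goodPairs K n ↔
    ((0 < x.1 ∧ x.1 ≤ K * n) ∧ (0 < x.2 ∧ x.2 ≤ K * n)) ∧ Nat.Coprime x.1 x.2 ∧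
    ∀ p, p.Prime → p ∣ (2 * (x.1 ^ 2 + x.2 ^ 2)) * (x.1 ^ 2 + 4 * x.2 ^ 2) → p ≤ K * n ^ 2 := by
  simp [goodPairs]

lemma card_goodPairs (K n : ℕ) (hK : 2 ≤ K) (hn : 2 ≤ n)
    (hy : 4 ^ (160 * (2 * K + 1) ^ 2) ≤ K * n ^ 2) :
    ((K * n : ℕ) : ℝ) ^ 2 ≤ 8 * #(goodPairs K n) := by
  classical
  set B := K * n with hB
  let Pr := {p ∈ Ioc (K * n ^ 2) (5 * B ^ 2) | p.Prime}
  let S : ℕ → Finset (ℕ × ℕ) := fun p =>
    {x ∈ Ioc 0 (2 * (K * n)) ×ˢ Ioc 0 (2 * (K * n)) | p ∣ x.1 ^ 2 + x.2 ^ 2}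
  let S' : ℕ → Finset (ℕ × ℕ) := fun p => (S p).image fun x => (x.1, x.2 / 2)
  have hsub : Ioc 0 B ×ˢ Ioc 0 B ⊆ goodPairs K n ∪
      ({x ∈ Ioc 0 B ×ˢ Ioc 0 B | ¬ Nat.Coprime x.1 x.2} ∪ Pr.biUnion fun p => S p ∪ S' p) := by
    intro x hx
    by_cases hc : Nat.Coprime x.1 x.2
    · by_cases hg : x ∈ goodPairs K n
      · exact mem_union_left _ hg
      · refine mem_union_right _ (mem_union_right _ ?_)
        have hx' := hx
        simp only [mem_product, mem_Ioc] at hx'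
        rw [mem_goodPairs] at hg
        have hg' : ¬ ∀ p, p.Prime → p ∣ (2 * (x.1 ^ 2 + x.2 ^ 2)) * (x.1 ^ 2 + 4 * x.2 ^ 2) →
            p ≤ K * n ^ 2 := fun h => hg ⟨hx', hc, h⟩
        push Not at hg'
        obtain ⟨p, hp, hd, hlt⟩ := hg'
        have h1 : x.1 ^ 2 ≤ B ^ 2 := Nat.pow_le_pow_left hx'.1.2 _
        have h2 : x.2 ^ 2 ≤ B ^ 2 := Nat.pow_le_pow_left hx'.2.2 _
        have h3 : 0 < x.1 ^ 2 := pow_pos hx'.1.1 _
        rw [mem_biUnion]
        rcases (Nat.Prime.dvd_mul hp).1 hd with hd | hd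
        · rcases (Nat.Prime.dvd_mul hp).1 hd with hd | hd
          · have := Nat.le_of_dvd (by norm_num) hd
            nlinarith
          · have := Nat.le_of_dvd (by omega) hd
            refine ⟨p, ?_, mem_union_left _ ?_⟩
            · simp only [Pr, mem_filter, mem_Ioc]; exact ⟨⟨hlt, by omega⟩, hp⟩
            · simp only [S, mem_filter, mem_product, mem_Ioc]
              exact ⟨⟨⟨hx'.1.1, by omega⟩, ⟨hx'.2.1, by omega⟩⟩, hd⟩
        · have := Nat.le_of_dvd (by omega) hd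
          refine ⟨p, ?_, mem_union_right _ ?_⟩
          · simp only [Pr, mem_filter, mem_Ioc]; exact ⟨⟨hlt, by omega⟩, hp⟩
          · simp only [S', S, mem_image, mem_filter, mem_product, mem_Ioc]
            refine ⟨(x.1, 2 * x.2), ⟨⟨⟨hx'.1.1, by simp only; omega⟩,
              ⟨by simp only; omega, by simp only; omega⟩⟩, ?_⟩, ?_⟩
            · have : x.1 ^ 2 + (2 * x.2) ^ 2 = x.1 ^ 2 + 4 * x.2 ^ 2 := by ring
              simp only [this, hd]
            · simp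
    · exact mem_union_right _ (mem_union_left _ (mem_filter.2 ⟨hx, hc⟩))
  have h1 := card_le_card hsub
  have h2 : #(Pr.biUnion fun p => S p ∪ S' p) ≤ #Pr * (4 * (2 * K + 1) ^ 2) := by
    refine card_biUnion_le_card_mul _ _ _ fun p hp => ?_
    simp only [Pr, mem_filter, mem_Ioc] at hp
    have := card_dvd_sq_add_sq K n p hK hn hp.2 hp.1.1
    have h3 : #(S' p) ≤ #(S p) := card_image_le
    have h4 := card_union_le (S p) (S' p)
    have h5 : #(S p) ≤ 2 * (2 * K + 1) ^ 2 := this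
    omega
  have h3 := card_primes_between (K * n ^ 2) (5 * B ^ 2) _ hy
  have h4 : 8 * #(Pr.biUnion fun p => S p ∪ S' p) ≤ B ^ 2 := by
    have : 160 * (2 * K + 1) ^ 2 * #Pr ≤ 5 * B ^ 2 := h3
    nlinarith
  have h5 := card_not_coprime B
  have h6 := (h1.trans (card_union_le _ _)).trans (Nat.add_le_add_left (card_union_le _ _) _)
  rw [card_product, Nat.card_Ioc, Nat.sub_zero] at h6
  have h7 : (8 : ℝ) * #(Pr.biUnion fun p => S p ∪ S' p) ≤ (B : ℝ) ^ 2 := by exact_mod_cast h4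
  have h8 : (B : ℝ) * B ≤ #(goodPairs K n) +
      ((#{x ∈ Ioc 0 B ×ˢ Ioc 0 B | ¬ Nat.Coprime x.1 x.2} : ℕ) +
        (#(Pr.biUnion fun p => S p ∪ S' p) : ℝ)) := by exact_mod_cast h6
  nlinarith

end Pool.Agent.MP_8b47e7_co.H99

end

-- part MP_8b47e7_co.H99.Edges
section

/-! Many solutions of `2 (h^2 + u^2 + v^2) = 5 u v` with `u, v` divisors of a small number `T`. -/

set_option autoImplicit false

namespace Pool.Agent.MP_8b47e7_co.H99

open Finset Filter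

lemma exists_n (K M : ℕ) (hK : 2 ≤ K) :
    ∃ n : ℕ, 2 ≤ n ∧ 20 * (K * n) ^ 4 < 2 ^ n ∧ 4 ^ M ≤ K * n ^ 2 := by
  have h1 := tendsto_pow_const_div_const_pow_of_one_lt 4 (r := 2) (by norm_num)
  have hpos : (0 : ℝ) < 1 / (20 * (K : ℝ) ^ 4) := by
    have : (0 : ℝ) < K := by exact_mod_cast (by omega : 0 < K)
    positivity
  have h2 := h1.eventually (gt_mem_nhds hpos)
  obtain ⟨n, hn1, hn2, hn3⟩ := (h2.and ((eventually_ge_atTop 2).and
    (eventually_ge_atTop (4 ^ M)))).exists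
  refine ⟨n, hn2, ?_, by nlinarith⟩
  have hK0 : (0 : ℝ) < K := by exact_mod_cast (by omega : 0 < K)
  rw [div_lt_div_iff₀ (by positivity) (by positivity)] at hn1
  have : (20 : ℝ) * (K * n) ^ 4 < 2 ^ n := by nlinarith
  exact_mod_cast this

theorem exists_edges (K : ℕ) (hK : 2 ≤ K) :
    ∃ n T : ℕ, 2 ≤ n ∧ 0 < T ∧ T ≤ 4 ^ (24 * K * n ^ 2) ∧ ∃ E : Finset (ℕ × ℕ × ℕ),
      (∀ e ∈ E, e.1 ∣ T ∧ e.2.1 ∣ T ∧
        2 * (e.2.2 ^ 2 + e.1 ^ 2 + e.2.1 ^ 2) = 5 * (e.1 * e.2.1)) ∧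
      ((K * n : ℕ) : ℝ) ^ 2 * #T.divisors ≤ 16 * #E := by
  classical
  obtain ⟨n, hn, h2n, hM⟩ := exists_n K (160 * (2 * K + 1) ^ 2) hK
  set T := boxT (K * n ^ 2) (3 * (K * n)) n with hT
  have hT0 : T ≠ 0 := boxT_ne_zero _ _ _
  let W : ℕ × ℕ → ℕ := fun x => (2 * (x.1 ^ 2 + x.2 ^ 2)) * (x.1 ^ 2 + 4 * x.2 ^ 2)
  have hW : ∀ x ∈ goodPairs K n, W x ∣ T ∧ (#T.divisors : ℝ) ≤ 2 * #(T / W x).divisors := by
    intro x hx
    rw [mem_goodPairs] at hx
    obtain ⟨⟨h1, h2⟩, -, h4⟩ := hx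
    have a1 : x.1 ^ 2 ≤ (K * n) ^ 2 := Nat.pow_le_pow_left h1.2 _
    have a2 : x.2 ^ 2 ≤ (K * n) ^ 2 := Nat.pow_le_pow_left h2.2 _
    have a3 : 0 < x.1 ^ 2 := pow_pos h1.1 _
    have a4 : W x ≤ 20 * (K * n) ^ 4 := by
      calc W x ≤ (4 * (K * n) ^ 2) * (5 * (K * n) ^ 2) := Nat.mul_le_mul (by omega) (by omega)
        _ = _ := by ring
    have a5 : 0 < K * n := Nat.mul_pos (by omega) (by omega)
    refine smooth_box _ _ _ _ (Nat.mul_pos (by omega) (by omega)).ne' (by omega) (by omega)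
      (a4.trans_lt h2n) ?_ h4
    have : 0 < (K * n) ^ 4 := pow_pos a5 _
    calc W x ≤ 20 * (K * n) ^ 4 := a4
      _ < 81 * (K * n) ^ 4 := by omega
      _ = _ := by ring
  let D : Finset (Σ _ : ℕ × ℕ, ℕ) := (goodPairs K n).sigma fun x => (T / W x).divisors
  let f : (Σ _ : ℕ × ℕ, ℕ) → ℕ × ℕ × ℕ := fun q =>
    (q.2 * (2 * (q.1.1 ^ 2 + q.1.2 ^ 2)), q.2 * (q.1.1 ^ 2 + 4 * q.1.2 ^ 2),
      3 * q.2 * q.1.1 * q.1.2)
  have hinj : Set.InjOn f D := by
    rintro ⟨⟨a, b⟩, d⟩ hq ⟨⟨a', b'⟩, d'⟩ hq' h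
    simp only [D, coe_sigma, Set.mem_sigma_iff, mem_coe, mem_goodPairs] at hq hq'
    simp only [f, Prod.mk.injEq] at h
    obtain ⟨e1, e2, -⟩ := h
    have e3 : d * a ^ 2 = d' * a' ^ 2 := by nlinarith
    have e4 : d * b ^ 2 = d' * b' ^ 2 := by nlinarith
    have g1 : Nat.gcd (d * a ^ 2) (d * b ^ 2) = d := by
      rw [Nat.gcd_mul_left, (hq.1.2.1.pow 2 2 : Nat.Coprime _ _), mul_one]
    have g2 : Nat.gcd (d' * a' ^ 2) (d' * b' ^ 2) = d' := by
      rw [Nat.gcd_mul_left, (hq'.1.2.1.pow 2 2 : Nat.Coprime _ _), mul_one]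
    have hd : d = d' := by rw [← g1, e3, e4, g2]
    subst hd
    have hd0 : 0 < d := Nat.pos_of_mem_divisors hq.2
    have ha : a = a' := Nat.pow_left_injective (by norm_num) (Nat.eq_of_mul_eq_mul_left hd0 e3)
    have hb : b = b' := Nat.pow_left_injective (by norm_num) (Nat.eq_of_mul_eq_mul_left hd0 e4)
    subst ha hb
    rfl
  refine ⟨n, T, hn, Nat.pos_of_ne_zero hT0, ?_, D.image f, ?_, ?_⟩
  · refine (boxT_le _ _ _).trans (le_of_eq ?_)
    congr 1; ring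
  · intro e he
    obtain ⟨⟨x, d⟩, hq, rfl⟩ := mem_image.1 he
    simp only [D, mem_sigma] at hq
    have h1 : d * W x ∣ T := by
      have := Nat.dvd_of_mem_divisors hq.2
      exact (Nat.dvd_div_iff_mul_dvd (hW x hq.1).1).1 this |> fun h => by rwa [mul_comm] at h
    refine ⟨Dvd.dvd.trans ⟨x.1 ^ 2 + 4 * x.2 ^ 2, by simp only [f, W]; ring⟩ h1,
      Dvd.dvd.trans ⟨2 * (x.1 ^ 2 + x.2 ^ 2), by simp only [f, W]; ring⟩ h1, ?_⟩
    simp only [f]; ring
  · rw [card_image_of_injOn hinj, card_sigma]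
    have h1 := card_goodPairs K n hK hn hM
    have h2 : (#(goodPairs K n) : ℝ) * #T.divisors ≤
        2 * ((∑ x ∈ goodPairs K n, #(T / W x).divisors : ℕ) : ℝ) := by
      push_cast
      rw [mul_sum, ← nsmul_eq_mul, ← sum_const]
      exact sum_le_sum fun x hx => (hW x hx).2
    have h0 : (0 : ℝ) ≤ #T.divisors := by positivity
    nlinarith

end Pool.Agent.MP_8b47e7_co.H99

end
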