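import Pool.Agent.MP_8b47e7_co.Mg.H99_Edges

/-! Point sets in 3-space with no four coplanar and more than `C n log n` unit distances. -/

set_option autoImplicit false

namespace Pool.Agent.MP_8b47e7_co.H99

open Filter Topology Finset

lemma d4_comb (w1 w2 w3 w4 : ℝ) (p q r s : ℝ × ℝ × ℝ × ℝ)
    (h : w1 • p + w2 • q + w3 • r + w4 • s = 0) (hd : d4 p q r s ≠ 0) :
    w1 = 0 ∧ w2 = 0 ∧ w3 = 0 ∧ w4 = 0 := by
  have one : ∀ (w1 w2 w3 w4 : ℝ) (p q r s : ℝ × ℝ × ℝ × ℝ),
      w1 • p + w2 • q + w3 • r + w4 • s = 0 → d4 p q r s ≠ 0 → w1 = 0 := by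
    intro w1 w2 w3 w4 p q r s h hd
    have h1 : d4 (w1 • p + w2 • q + w3 • r + w4 • s) q r s = w1 * d4 p q r s := by
      simp only [d4, d3, Prod.smul_fst, Prod.smul_snd, Prod.fst_add, Prod.snd_add, smul_eq_mul]
      ring
    rw [h] at h1
    have h2 : d4 (0 : ℝ × ℝ × ℝ × ℝ) q r s = 0 := by simp [d4]
    rw [h2] at h1
    exact (mul_eq_zero.1 h1.symm).resolve_right hd
  refine ⟨one _ _ _ _ _ _ _ _ h hd, one w2 w1 w3 w4 q p r s (by rw [← h]; abel) ?_,
    one w3 w1 w2 w4 r p q s (by rw [← h]; abel) ?_, one w4 w1 w2 w3 s p q r (by rw [← h]; abel) ?_⟩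
  · rw [d4_swap12]; exact neg_ne_zero.2 hd
  · rw [d4_swap12, d4_swap23, neg_neg]; exact hd
  · rw [d4_swap12, d4_swap23, d4_swap34, neg_neg]; exact neg_ne_zero.2 hd

/-- The point attached to an index. -/
noncomputable def ptI (s t : ℝ) (i : Ix) : EuclideanSpace ℝ (Fin 3) := pt i.1 i.2.1 i.2.2 s t

lemma affInd (s t : ℝ) (g : Fin 4 → Ix) (hy : ∀ m, 0 < (g m).2.2)
    (hd : d4 (rowI (g 0) s t) (rowI (g 1) s t) (rowI (g 2) s t) (rowI (g 3) s t) ≠ 0) :
    AffineIndependent ℝ (fun m => ptI s t (g m)) := by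
  rw [affineIndependent_iff_of_fintype]
  intro w hw h
  rw [Finset.weightedVSub_eq_linear_combination _ hw] at h
  have hpos : ∀ m, 0 < (rowI (g m) s t).2.2.2 := fun m =>
    row_last_pos _ (by exact_mod_cast hy m)
  have c0 := congrArg (fun v : EuclideanSpace ℝ (Fin 3) => v 0) h
  have c1 := congrArg (fun v : EuclideanSpace ℝ (Fin 3) => v 1) h
  have c2 := congrArg (fun v : EuclideanSpace ℝ (Fin 3) => v 2) h
  simp only [Fin.sum_univ_four, ptI, pt] at c0 c1 c2 hw
  simp at c0 c1 c2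
  have p0 := hpos 0
  have p1 := hpos 1
  have p2 := hpos 2
  have p3 := hpos 3
  obtain ⟨a0, a1, a2, a3⟩ := d4_comb (w 0 / (rowI (g 0) s t).2.2.2) (w 1 / (rowI (g 1) s t).2.2.2)
    (w 2 / (rowI (g 2) s t).2.2.2) (w 3 / (rowI (g 3) s t).2.2.2) _ _ _ _
    (by
      simp only [rowI] at p0 p1 p2 p3 ⊢
      refine Prod.ext ?_ (Prod.ext ?_ (Prod.ext ?_ ?_)) <;>
        simp only [Prod.smul_fst, Prod.smul_snd, Prod.fst_add, Prod.snd_add, smul_eq_mul,
          Prod.fst_zero, Prod.snd_zero]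
      · rw [← c0]; ring
      · rw [← c1]; ring
      · rw [← c2]; ring
      · rw [← hw]; field_simp) hd
  intro m
  fin_cases m
  · simpa [p0.ne'] using a0
  · simpa [p1.ne'] using a1
  · simpa [p2.ne'] using a2
  · simpa [p3.ne'] using a3

lemma exists_centre (I : Finset Ix) (hI : ∀ i ∈ I, 0 < i.2.2) :
    ∃ s t : ℝ, 0 < t ∧ ∀ g : Fin 4 → Ix, (∀ m, g m ∈ I) → Function.Injective g →
      AffineIndependent ℝ (fun m => ptI s t (g m)) := by
  classical
  let Q : Finset (Fin 4 → Ix) := {g ∈ Fintype.piFinset fun _ => I | Function.Injective g}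
  have h1 : ∀ g ∈ Q, Good (g 0) (g 1) (g 2) (g 3) := by
    intro g hg
    simp only [Q, mem_filter, Fintype.mem_piFinset] at hg
    exact good_all (hI _ (hg.1 _)) (hI _ (hg.1 _)) (hI _ (hg.1 _)) (hI _ (hg.1 _))
      (hg.2.ne (by decide)) (hg.2.ne (by decide)) (hg.2.ne (by decide)) (hg.2.ne (by decide))
      (hg.2.ne (by decide)) (hg.2.ne (by decide))
  obtain ⟨s, hs⟩ := ((eventually_all_finset Q).2 h1).exists
  obtain ⟨t, ht, ht0⟩ := (((eventually_all_finset Q).2 hs).and self_mem_nhdsWithin).exists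
  refine ⟨s, t, ht0, fun g hg hinj => affInd s t g (fun m => hI _ (hg m)) (ht g ?_)⟩
  simp only [Q, mem_filter, Fintype.mem_piFinset]
  exact ⟨hg, hinj⟩

theorem main (C : ℝ) : ∃ P : Finset (EuclideanSpace ℝ (Fin 3)), 4 ≤ P.card ∧
      (∀ S ⊆ P, S.card = 4 → ¬ Coplanar ℝ (S : Set (EuclideanSpace ℝ (Fin 3)))) ∧
      C * (P.card : ℝ) * Real.log (P.card : ℝ) <
        (({pq : EuclideanSpace ℝ (Fin 3) × EuclideanSpace ℝ (Fin 3) |
            pq.1 ∈ P ∧ pq.2 ∈ P ∧ dist pq.1 pq.2 = 1}.ncard : ℕ) : ℝ) / 2 := by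
  classical
  obtain ⟨K, hK⟩ := exists_nat_gt (max 2 (20000 * C))
  have hK2 : 2 ≤ K := by
    have : (2 : ℝ) < K := (le_max_left _ _).trans_lt hK
    exact_mod_cast this.le
  have hKC : 20000 * C < K := (le_max_right _ _).trans_lt hK
  obtain ⟨n, T, hn, hT, hTle, E, hE, hcard⟩ := exists_edges K hK2
  let I : Finset Ix := univ ×ˢ (Ico (0 : ℤ) (2 * T) ×ˢ T.divisors.image (fun d : ℕ => (d : ℤ)))
  have memI : ∀ {e : Bool} {x : ℤ} {d : ℕ}, 0 ≤ x → x < 2 * T → d ∣ T → (e, x, (d : ℤ)) ∈ I := by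
    intro e x d h0 h1 hd
    simp only [I, mem_product, mem_univ, mem_Ico, mem_image, true_and]
    exact ⟨⟨h0, h1⟩, d, Nat.mem_divisors.2 ⟨hd, hT.ne'⟩, rfl⟩
  have hI : ∀ i ∈ I, 0 < i.2.2 := by
    intro i hi
    simp only [I, mem_product, mem_image] at hi
    obtain ⟨-, -, d, hd, h⟩ := hi
    rw [← h]; exact_mod_cast Nat.pos_of_mem_divisors hd
  have hIcard : #I = 4 * T * #T.divisors := by
    simp only [I, card_product, card_univ, Fintype.card_bool, Int.card_Ico]
    rw [card_image_of_injective _ Nat.cast_injective]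
    have : (2 * (T : ℤ) - 0).toNat = 2 * T := by omega
    rw [this]; ring
  have hτ : 1 ≤ #T.divisors := card_pos.2 ⟨1, Nat.one_mem_divisors.2 hT.ne'⟩
  have hτ' : #T.divisors ≤ T := Nat.card_divisors_le_self T
  have hI4 : 4 ≤ #I := by rw [hIcard]; nlinarith
  obtain ⟨s, t, ht, hgen⟩ := exists_centre I hI
  have hinj : Set.InjOn (ptI s t) I := by
    intro i hi j hj hij
    by_contra hne
    have h2 : 1 < #(I \ {i, j}) := by
      have h3 := le_card_sdiff {i, j} I
      have h4 : #({i, j} : Finset Ix) ≤ 2 := card_le_two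
      omega
    obtain ⟨k, hk, l, hl, hkl⟩ := one_lt_card.1 h2
    rw [Finset.mem_sdiff, Finset.mem_insert, Finset.mem_singleton, not_or] at hk hl
    have hg := hgen ![i, j, k, l] (fun m => by
      fin_cases m
      exacts [hi, hj, hk.1, hl.1]) (by
      intro a b hab
      fin_cases a <;> fin_cases b <;> first
        | rfl
        | exact absurd hab hne | exact absurd hab.symm hne
        | exact absurd hab hk.2.1 | exact absurd hab.symm hk.2.1
        | exact absurd hab hk.2.2 | exact absurd hab.symm hk.2.2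
        | exact absurd hab hl.2.1 | exact absurd hab.symm hl.2.1
        | exact absurd hab hl.2.2 | exact absurd hab.symm hl.2.2
        | exact absurd hab hkl | exact absurd hab.symm hkl)
    have := hg.injective (a₁ := 0) (a₂ := 1) (by simpa using hij)
    simp at this
  have hPcard : #(I.image (ptI s t)) = #I := card_image_of_injOn hinj
  refine ⟨I.image (ptI s t), by omega, ?_, ?_⟩
  · intro S hS h4 hcop
    let e : S ≃ Fin 4 := S.equivFinOfCardEq h4
    have hex : ∀ m : Fin 4, ∃ i ∈ I, ptI s t i = (e.symm m : EuclideanSpace ℝ (Fin 3)) :=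
      fun m => mem_image.1 (hS (e.symm m).2)
    choose g hg hg' using hex
    have hginj : Function.Injective g := by
      intro a b hab
      have : (e.symm a : EuclideanSpace ℝ (Fin 3)) = e.symm b := by rw [← hg', ← hg', hab]
      exact e.symm.injective (Subtype.ext this)
    have hrange : Set.range (fun m => ptI s t (g m)) = (S : Set _) := by
      ext x
      simp only [Set.mem_range, hg', mem_coe]
      constructor
      · rintro ⟨m, rfl⟩; exact (e.symm m).2
      · intro hx; exact ⟨e ⟨x, hx⟩, by simp⟩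
    have h3 := (hgen g hg hginj).finrank_vectorSpan (n := 3) (by simp)
    rw [hrange] at h3
    have := hcop.finrank_le_two
    omega
  · set U := {pq : EuclideanSpace ℝ (Fin 3) × EuclideanSpace ℝ (Fin 3) |
      pq.1 ∈ I.image (ptI s t) ∧ pq.2 ∈ I.image (ptI s t) ∧ dist pq.1 pq.2 = 1} with hU
    have hUfin : U.Finite :=
      (I.image (ptI s t) ×ˢ I.image (ptI s t)).finite_toSet.subset fun pq h => by
        simp only [coe_product, Set.mem_prod, mem_coe]; exact ⟨h.1, h.2.1⟩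
    let ψ : (ℕ × ℕ × ℕ) × ℕ → EuclideanSpace ℝ (Fin 3) × EuclideanSpace ℝ (Fin 3) := fun q =>
      (ptI s t (true, (q.2 : ℤ), (q.1.1 : ℤ)), ptI s t (false, (q.2 + q.1.2.2 : ℤ), (q.1.2.1 : ℤ)))
    have hmem : ∀ q ∈ E ×ˢ range T, ((true, (q.2 : ℤ), (q.1.1 : ℤ)) : Ix) ∈ I ∧
        ((false, (q.2 + q.1.2.2 : ℤ), (q.1.2.1 : ℤ)) : Ix) ∈ I := by
      intro q hq
      rw [mem_product, mem_range] at hq
      obtain ⟨d1, d2, he⟩ := hE _ hq.1
      have u1 := Nat.le_of_dvd hT d1
      have u2 := Nat.le_of_dvd hT d2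
      have hh : q.1.2.2 ≤ T := by
        by_contra hc
        push Not at hc
        have a1 : q.1.1 * q.1.2.1 ≤ T * T := Nat.mul_le_mul u1 u2
        have a2 : T * T < q.1.2.2 * q.1.2.2 := Nat.mul_lt_mul'' hc hc
        zify at he a1 a2
        nlinarith [sq_nonneg ((q.1.1 : ℤ) - q.1.2.1)]
      exact ⟨memI (by omega) (by omega) d1, memI (by omega) (by omega) d2⟩
    have hψinj : Set.InjOn ψ (E ×ˢ range T : Finset _) := by
      intro q hq q' hq' h
      simp only [ψ, Prod.mk.injEq] at h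
      have a1 := hinj (hmem q hq).1 (hmem q' hq').1 h.1
      have a2 := hinj (hmem q hq).2 (hmem q' hq').2 h.2
      simp only [Prod.mk.injEq, Nat.cast_inj, true_and] at a1 a2
      refine Prod.ext (Prod.ext a1.2 (Prod.ext a2.2 ?_)) a1.1
      omega
    have hψsub : ((E ×ˢ range T).image ψ : Set _) ⊆ U := by
      intro pq hpq
      obtain ⟨q, hq, rfl⟩ := mem_image.1 (mem_coe.1 hpq)
      refine ⟨mem_image_of_mem _ (hmem q hq).1, mem_image_of_mem _ (hmem q hq).2, ?_⟩
      have a1 := hI _ (hmem q hq).1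
      have a2 := hI _ (hmem q hq).2
      obtain ⟨-, -, he⟩ := hE _ (mem_product.1 hq).1
      simp only at a1 a2
      simp only [ψ, ptI]
      refine dist_pt (by exact_mod_cast a1) (by exact_mod_cast a2) ht ?_
      have : (2 : ℝ) * ((q.1.2.2 : ℝ) ^ 2 + (q.1.1 : ℝ) ^ 2 + (q.1.2.1 : ℝ) ^ 2)
          = 5 * ((q.1.1 : ℝ) * q.1.2.1) := by exact_mod_cast he
      push_cast
      linear_combination this
    have hcount : #E * T ≤ U.ncard := by
      have := Set.ncard_le_ncard hψsub hUfin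
      rwa [Set.ncard_coe_finset, card_image_of_injOn hψinj, card_product, card_range] at this
    have hcount' : (#E : ℝ) * T ≤ U.ncard := by exact_mod_cast hcount
    rw [hPcard, hIcard]
    have hlog : Real.log ((4 * T * #T.divisors : ℕ) : ℝ) ≤ 98 * K * n ^ 2 := by
      have h1 : 4 * T * #T.divisors ≤ 4 ^ (49 * K * n ^ 2) := by
        have hKn : 1 ≤ K * n ^ 2 := Nat.mul_pos (by omega) (by positivity)
        calc 4 * T * #T.divisors ≤ 4 * 4 ^ (24 * K * n ^ 2) * 4 ^ (24 * K * n ^ 2) :=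
              Nat.mul_le_mul (Nat.mul_le_mul_left _ hTle) (hτ'.trans hTle)
          _ = 4 ^ (48 * K * n ^ 2 + 1) := by ring
          _ ≤ _ := Nat.pow_le_pow_right (by norm_num) (by nlinarith)
      have h2 : ((4 * T * #T.divisors : ℕ) : ℝ) ≤ (4 : ℝ) ^ (49 * K * n ^ 2) := by
        exact_mod_cast h1
      have h3 : (0 : ℝ) < ((4 * T * #T.divisors : ℕ) : ℝ) := by
        exact_mod_cast (by positivity : 0 < 4 * T * #T.divisors)
      have h4 := Real.log_le_log h3 h2
      rw [Real.log_pow] at h4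
      have h5 : Real.log 4 ≤ 2 := by
        rw [show (4 : ℝ) = 2 ^ 2 by norm_num, Real.log_pow]
        have := Real.log_two_lt_d9
        push_cast; linarith
      have h6 : (0 : ℝ) ≤ ((49 * K * n ^ 2 : ℕ) : ℝ) := by positivity
      have := mul_le_mul_of_nonneg_left h5 h6
      push_cast at h4 this ⊢
      linarith
    have hlog0 : 0 ≤ Real.log ((4 * T * #T.divisors : ℕ) : ℝ) := Real.log_natCast_nonneg _
    have hT' : (0 : ℝ) < T := by exact_mod_cast hT
    have hτ0 : (0 : ℝ) < #T.divisors := by exact_mod_cast hτ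
    have hK0 : (0 : ℝ) < K := by exact_mod_cast (by omega : 0 < K)
    have hn0 : (0 : ℝ) < n := by exact_mod_cast (by omega : 0 < n)
    generalize Real.log ((4 * T * #T.divisors : ℕ) : ℝ) = L at hlog hlog0 ⊢
    push_cast at hcard ⊢
    have s1 : C * (4 * T * #T.divisors) * L ≤ (K / 20000) * (4 * T * #T.divisors) * L :=
      mul_le_mul_of_nonneg_right (mul_le_mul_of_nonneg_right (by linarith) (by positivity)) hlog0
    have s2 : (K / 20000) * (4 * T * #T.divisors) * L ≤
        (K / 20000) * (4 * T * #T.divisors) * (98 * K * n ^ 2 : ℝ) :=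
      mul_le_mul_of_nonneg_left hlog (by positivity)
    have s3 : ((K : ℝ) * n) ^ 2 * #T.divisors * T ≤ 16 * #E * T :=
      mul_le_mul_of_nonneg_right hcard hT'.le
    have s4 : (0 : ℝ) < ((K : ℝ) * n) ^ 2 * #T.divisors * T := by positivity
    nlinarith

end Pool.Agent.MP_8b47e7_co.H99
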